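import Pool.Agent.Q240.GC.Diverge

/-!
The Gaussian consensus process in `ℝ^d` and its projections on a direction.
-/

namespace Pool.Agent.Q240.GC

open MeasureTheory ProbabilityTheory Set Filter WithLp Matrix
open scoped ENNReal NNReal Topology RealInnerProductSpace

/-- States: `N` particles in `ℝ^d`. -/
abbrev State (N d : ℕ) := Fin N → EuclideanSpace ℝ (Fin d)

variable {N d : ℕ}

/-- Average position of the particles. -/
noncomputable def rowMean (x : State N d) : EuclideanSpace ℝ (Fin d) := (N : ℝ)⁻¹ • ∑ k, x k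

/-- The centred state, as an `N × d` matrix. -/
noncomputable def centred (x : State N d) : Matrix (Fin N) (Fin d) ℝ :=
  Matrix.of fun i a => x i a - rowMean x a

/-- Empirical covariance matrix. -/
noncomputable def Cov (x : State N d) : Matrix (Fin d) (Fin d) ℝ :=
  (N : ℝ)⁻¹ • ((centred x)ᵀ * centred x)

/-- Transition law: independent Gaussian rows with mean `β x_i + (1 - β) μ(x)` and covariance
`ρ Cov(x)`. -/
noncomputable def stepLaw (β ρ : ℝ) (x : State N d) : Measure (State N d) :=
  Measure.pi fun i => multivariateGaussian (β • x i + (1 - β) • rowMean x) (ρ • Cov x)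

/-- The Gaussian consensus process with respect to a filtration: an adapted process whose
initial empirical covariance matrix is almost surely positive definite and whose conditional law
given the past is the transition law. -/
structure IsConsensus {Ω : Type*} {mΩ : MeasurableSpace Ω} (P : Measure Ω)
    (ℱ : Filtration ℕ mΩ) (β ρ : ℝ) (X : ℕ → Ω → State N d) : Prop where
  meas : ∀ t, Measurable[ℱ t] (X t)
  init : ∀ᵐ ω ∂P, (Cov (X 0 ω)).PosDef
  step : ∀ t, ∀ H : Set Ω, MeasurableSet[ℱ t] H → ∀ A : Set (State N d), MeasurableSet A →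
    P (H ∩ X (t + 1) ⁻¹' A) = ∫⁻ ω in H, stepLaw β ρ (X t ω) A ∂P

/-- Projection of a state on a direction. -/
noncomputable def pr (u : EuclideanSpace ℝ (Fin d)) (x : State N d) : E N :=
  toLp 2 (fun i => ⟪u, x i⟫)

@[simp] lemma pr_apply (u : EuclideanSpace ℝ (Fin d)) (x : State N d) (i : Fin N) :
    pr u x i = ⟪u, x i⟫ := rfl

lemma measurable_pr (u : EuclideanSpace ℝ (Fin d)) : Measurable (pr u : State N d → E N) := by
  have h1 : Measurable (fun x : State N d => fun i => ⟪u, x i⟫) := by
    apply measurable_pi_lambda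
    intro i
    have : Continuous (fun x : State N d => ⟪u, x i⟫) :=
      continuous_const.inner (continuous_apply i)
    exact this.measurable
  exact (PiLp.continuous_toLp 2 _).measurable.comp h1

lemma mean_pr (u : EuclideanSpace ℝ (Fin d)) (x : State N d) :
    mean (pr u x) = ⟪u, rowMean x⟫ := by
  unfold mean rowMean
  simp only [pr_apply]
  rw [inner_smul_right, inner_sum]
  field_simp

lemma bar_pr_apply (u : EuclideanSpace ℝ (Fin d)) (x : State N d) (i : Fin N) :
    bar (pr u x) i = (centred x *ᵥ ofLp u) i := by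
  rw [bar_apply, mean_pr, pr_apply, ← inner_sub_right]
  simp [centred, mulVec, dotProduct, PiLp.inner_apply]

lemma quad_eq (u : EuclideanSpace ℝ (Fin d)) (x : State N d) :
    ofLp u ⬝ᵥ (Cov x *ᵥ ofLp u) = (N : ℝ)⁻¹ * ‖bar (pr u x)‖ ^ 2 := by
  unfold Cov
  rw [smul_mulVec, dotProduct_smul, ← mulVec_mulVec, dotProduct_mulVec, vecMul_transpose,
    smul_eq_mul]
  congr 1
  rw [← real_inner_self_eq_norm_sq, inner_eq]
  simp_rw [bar_pr_apply]
  rfl

lemma Cov_posSemidef (x : State N d) : (Cov x).PosSemidef := by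
  unfold Cov
  have h := posSemidef_conjTranspose_mul_self (centred x)
  rw [conjTranspose_eq_transpose_of_trivial] at h
  exact h.smul (by positivity)

/-- Law of one projected row. -/
lemma row_law (u : EuclideanSpace ℝ (Fin d)) {ρ : ℝ} (hρ : 0 ≤ ρ) (m : EuclideanSpace ℝ (Fin d))
    (x : State N d) :
    (multivariateGaussian m (ρ • Cov x)).map (fun z => ⟪u, z⟫) =
      gaussianReal ⟪u, m⟫ ⟨(√(ρ / N) * ‖bar (pr u x)‖) ^ 2, sq_nonneg _⟩ := by
  have hS : (ρ • Cov x).PosSemidef := (Cov_posSemidef x).smul hρ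
  have h := IsGaussian.map_eq_gaussianReal (μ := multivariateGaussian m (ρ • Cov x)) (innerSL ℝ u)
  have e1 : (multivariateGaussian m (ρ • Cov x))[innerSL ℝ u] = ⟪u, m⟫ := by
    rw [ContinuousLinearMap.integral_comp_id_comm IsGaussian.integrable_id,
      integral_id_multivariateGaussian]
    rfl
  have e2 : Var[innerSL ℝ u; multivariateGaussian m (ρ • Cov x)] =
      (√(ρ / N) * ‖bar (pr u x)‖) ^ 2 := by
    have h3 := covarianceBilin_self (μ := multivariateGaussian m (ρ • Cov x))
      (IsGaussian.memLp_two_id) u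
    rw [covarianceBilin_multivariateGaussian hS] at h3
    have h4 : Var[innerSL ℝ u; multivariateGaussian m (ρ • Cov x)] =
        ofLp u ⬝ᵥ ((ρ • Cov x) *ᵥ ofLp u) := h3.symm
    rw [h4, smul_mulVec, dotProduct_smul, quad_eq, mul_pow, Real.sq_sqrt (by positivity),
      smul_eq_mul]
    ring
  have e3 : (fun z : EuclideanSpace ℝ (Fin d) => ⟪u, z⟫) = ⇑(innerSL ℝ u) := rfl
  rw [e3, h, e1, e2, Real.toNNReal_of_nonneg (sq_nonneg _)]
  rfl

/-- The projected transition law is the one-dimensional one. -/
lemma stepLaw_map (u : EuclideanSpace ℝ (Fin d)) {β ρ : ℝ} (hρ : 0 ≤ ρ) (x : State N d) :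
    (stepLaw β ρ x).map (pr u) =
      (stdGaussian (E N)).map (fun h => T β (√(ρ / N)) (pr u x) h) := by
  set s := √(ρ / N) * ‖bar (pr u x)‖ with hs
  have mL : Measurable (toLp 2 : (Fin N → ℝ) → E N) := (PiLp.continuous_toLp 2 _).measurable
  have mT := measurable_T_right β (√(ρ / N)) (pr u x)
  have min : Measurable (fun z : EuclideanSpace ℝ (Fin d) => ⟪u, z⟫) :=
    (continuous_const.inner continuous_id).measurable
  have e1 : (stepLaw β ρ x).map (pr u) =
      (Measure.pi fun i => gaussianReal ⟪u, β • x i + (1 - β) • rowMean x⟫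
        ⟨s ^ 2, sq_nonneg _⟩).map (toLp 2) := by
    have h1 : (pr u : State N d → E N) = toLp 2 ∘ (fun x i => ⟪u, x i⟫) := rfl
    have h2 : Measurable (fun (x : State N d) (i : Fin N) => ⟪u, x i⟫) :=
      measurable_pi_lambda _ fun i => min.comp (measurable_pi_apply i)
    rw [h1, ← Measure.map_map mL h2]
    congr 1
    unfold stepLaw
    have h3 := Measure.pi_map_pi (μ := fun i : Fin N =>
      multivariateGaussian (β • x i + (1 - β) • rowMean x) (ρ • Cov x))
      (f := fun _ z => ⟪u, z⟫) (fun i => min.aemeasurable)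
      (hμ := fun i => by rw [row_law u hρ]; infer_instance)
    rw [h3]
    congr 1
    funext i
    rw [row_law u hρ]
  have e2 : (stdGaussian (E N)).map (fun h => T β (√(ρ / N)) (pr u x) h) =
      (Measure.pi fun i => gaussianReal ⟪u, β • x i + (1 - β) • rowMean x⟫
        ⟨s ^ 2, sq_nonneg _⟩).map (toLp 2) := by
    rw [← map_pi_eq_stdGaussian, Measure.map_map mT mL]
    have h1 : (fun h : E N => T β (√(ρ / N)) (pr u x) h) ∘ (toLp 2 : (Fin N → ℝ) → E N) =
        toLp 2 ∘ (fun (g : Fin N → ℝ) i => ⟪u, β • x i + (1 - β) • rowMean x⟫ + s * g i) := by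
      funext g
      apply PiLp.ext
      intro i
      simp only [Function.comp, T]
      rw [mean_pr]
      simp [inner_add_right, inner_smul_right, hs]
    have h2 : Measurable (fun (g : Fin N → ℝ) (i : Fin N) =>
        ⟪u, β • x i + (1 - β) • rowMean x⟫ + s * g i) := by fun_prop
    rw [h1, ← Measure.map_map mL h2]
    congr 1
    have h4 : ∀ i : Fin N, (gaussianReal 0 1).map
        (fun z => ⟪u, β • x i + (1 - β) • rowMean x⟫ + s * z) =
        gaussianReal ⟪u, β • x i + (1 - β) • rowMean x⟫ ⟨s ^ 2, sq_nonneg _⟩ := by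
      intro i
      have h5 : (fun z : ℝ => ⟪u, β • x i + (1 - β) • rowMean x⟫ + s * z) =
          (fun z => ⟪u, β • x i + (1 - β) • rowMean x⟫ + z) ∘ (fun z => s * z) := rfl
      rw [h5, ← Measure.map_map (by fun_prop) (by fun_prop), gaussianReal_map_const_mul,
        gaussianReal_map_const_add]
      simp
      rfl
    have h3 := Measure.pi_map_pi (μ := fun _ : Fin N => gaussianReal 0 1)
      (f := fun i z => ⟪u, β • x i + (1 - β) • rowMean x⟫ + s * z)
      (fun i => by fun_prop) (hμ := fun i => by rw [h4]; infer_instance)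
    rw [h3]
    congr 1
    funext i
    rw [h4]
  rw [e1, e2]

lemma stepLaw_apply (u : EuclideanSpace ℝ (Fin d)) {β ρ : ℝ} (hρ : 0 ≤ ρ) (x : State N d)
    {B : Set (E N)} (hB : MeasurableSet B) :
    stepLaw β ρ x (pr u ⁻¹' B) =
      stdGaussian (E N) ((fun h => T β (√(ρ / N)) (pr u x) h) ⁻¹' B) := by
  have mT2 := measurable_T_right β (√(ρ / N)) (pr u x)
  have h1 := Measure.map_apply (μ := stepLaw β ρ x) (measurable_pr u) hB
  have h2 := Measure.map_apply (μ := stdGaussian (E N)) mT2 hB
  rw [← h1, ← h2, stepLaw_map u hρ]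

variable {Ω : Type*} {mΩ : MeasurableSpace Ω} {P : Measure Ω} {ℱ : Filtration ℕ mΩ}
  {β ρ : ℝ} {X : ℕ → Ω → State N d}

lemma IsConsensus.chain [IsProbabilityMeasure P] (hρ : 0 ≤ ρ) (hX : IsConsensus P ℱ β ρ X)
    {u : EuclideanSpace ℝ (Fin d)} (hu : u ≠ 0) :
    Chain P ℱ β (√(ρ / N)) (fun t ω => pr u (X t ω)) where
  meas t := (measurable_pr u).comp (hX.meas t)
  init := by
    filter_upwards [hX.init] with ω hω h0
    have h1 := hω.dotProduct_mulVec_pos (x := ofLp u) (by
      intro h; apply hu; apply PiLp.ext; intro i; exact congrFun h i)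
    rw [star_trivial, quad_eq, h0] at h1
    simp at h1
  step t H hH f hf := by
    have mH : MeasurableSet H := ℱ.le t _ hH
    have mX : ∀ t, Measurable (X t) := fun t => (hX.meas t).mono (ℱ.le t) le_rfl
    have my : ∀ t, Measurable (fun ω => pr u (X t ω)) := fun t => (measurable_pr u).comp (mX t)
    have mg : Measurable (fun p : Ω × E N => (pr u (X t p.1), p.2)) :=
      Measurable.prodMk ((my t).comp measurable_fst) measurable_snd
    have mT : Measurable (fun p : Ω × E N => T β (√(ρ / N)) (pr u (X t p.1)) p.2) :=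
      Measurable.comp (g := fun q : E N × E N => T β (√(ρ / N)) q.1 q.2)
        (f := fun p : Ω × E N => (pr u (X t p.1), p.2)) (measurable_T β (√(ρ / N))) mg
    have hμ : (P.restrict H).map (fun ω => pr u (X (t + 1) ω)) =
        ((P.restrict H).prod (stdGaussian (E N))).map
          (fun p : Ω × E N => T β (√(ρ / N)) (pr u (X t p.1)) p.2) := by
      apply Measure.ext
      intro B hB
      have h0 : (P.restrict H).map (fun ω => pr u (X (t + 1) ω)) B =
          P (H ∩ X (t + 1) ⁻¹' (pr u ⁻¹' B)) := by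
        rw [Measure.map_apply (my (t + 1)) hB, Measure.restrict_apply ((my (t + 1)) hB),
          inter_comm]
        rfl
      have h1 := hX.step t H hH (pr u ⁻¹' B) ((measurable_pr u) hB)
      have h3 : ((P.restrict H).prod (stdGaussian (E N))).map
          (fun p : Ω × E N => T β (√(ρ / N)) (pr u (X t p.1)) p.2) B =
          ∫⁻ ω in H, stdGaussian (E N) ((fun h => T β (√(ρ / N)) (pr u (X t ω)) h) ⁻¹' B) ∂P := by
        rw [Measure.map_apply mT hB, Measure.prod_apply (mT hB)]
        rfl
      rw [h0, h1, h3]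
      apply lintegral_congr
      intro ω
      exact stepLaw_apply u hρ (X t ω) hB
    have mfT : Measurable (fun p : Ω × E N => f (T β (√(ρ / N)) (pr u (X t p.1)) p.2)) :=
      hf.comp mT
    have c1 : ∫⁻ ω in H, f (pr u (X (t + 1) ω)) ∂P =
        ∫⁻ z, f z ∂((P.restrict H).map (fun ω => pr u (X (t + 1) ω))) :=
      (lintegral_map hf (my (t + 1))).symm
    have c2 : ∫⁻ z, f z ∂(((P.restrict H).prod (stdGaussian (E N))).map
          (fun p : Ω × E N => T β (√(ρ / N)) (pr u (X t p.1)) p.2)) =
        ∫⁻ p, f (T β (√(ρ / N)) (pr u (X t p.1)) p.2)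
            ∂((P.restrict H).prod (stdGaussian (E N))) := lintegral_map hf mT
    have c3 := lintegral_prod (μ := P.restrict H) (ν := stdGaussian (E N))
      (fun p : Ω × E N => f (T β (√(ρ / N)) (pr u (X t p.1)) p.2)) mfT.aemeasurable
    rw [c1, hμ, c2, c3]

end Pool.Agent.Q240.GC
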