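import Pool.Agent.Q240.GC.Process

/-!
Divergence of the one-dimensional Gaussian consensus chain at criticality.
-/

namespace Pool.Agent.Q240.GC

open MeasureTheory ProbabilityTheory Set Filter WithLp
open scoped ENNReal NNReal Topology RealInnerProductSpace

variable {N : ℕ}
variable {Ω : Type*} {mΩ : MeasurableSpace Ω} {P : Measure Ω} {ℱ : Filtration ℕ mΩ}
  {β σ : ℝ} {y : ℕ → Ω → E N}

lemma exp_log_bound (t : ℕ) : Real.exp (-(2 * (Nat.log 2 t : ℝ))) ≤ 4 / ((t : ℝ) + 1) ^ 2 := by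
  set k := Nat.log 2 t with hk
  have h1 : t + 1 ≤ 2 ^ (k + 1) := Nat.lt_pow_succ_log_self (by norm_num) t
  have h2 : (t : ℝ) + 1 ≤ 2 ^ (k + 1) := by exact_mod_cast h1
  have h3 : (2 : ℝ) ≤ Real.exp 1 := by
    have := Real.add_one_le_exp (1 : ℝ); linarith
  have h4 : Real.exp (2 * (k : ℝ)) = (Real.exp 1 ^ k) ^ 2 := by
    rw [← Real.exp_nat_mul, ← Real.exp_nat_mul]; congr 1; push_cast; ring
  have h5 : (2 : ℝ) ^ k ≤ Real.exp 1 ^ k := pow_le_pow_left₀ (by norm_num) h3 k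
  rw [Real.exp_neg, inv_eq_one_div, div_le_div_iff₀ (Real.exp_pos _) (by positivity), h4]
  have h6 : (t : ℝ) + 1 ≤ 2 * Real.exp 1 ^ k := by
    calc (t : ℝ) + 1 ≤ 2 ^ (k + 1) := h2
      _ = 2 * 2 ^ k := by ring
      _ ≤ _ := by linarith
  nlinarith [pow_le_pow_left₀ (by positivity : (0 : ℝ) ≤ (t : ℝ) + 1) h6 2]

lemma summable_exp_log (c : ℝ) :
    Summable (fun t : ℕ => c * Real.exp (-(2 * (Nat.log 2 t : ℝ)))) := by
  apply Summable.mul_left
  have h1 : Summable (fun t : ℕ => 4 / ((t : ℝ) + 1) ^ 2) := by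
    have h2 : Summable (fun t : ℕ => 1 / ((t : ℝ)) ^ 2) :=
      Real.summable_one_div_nat_pow.2 (by norm_num)
    have h3 := ((summable_nat_add_iff 1).2 h2).mul_left 4
    refine h3.congr fun t => ?_
    push_cast; ring
  exact Summable.of_nonneg_of_le (fun t => (Real.exp_pos _).le) exp_log_bound h1

lemma rt_two_pow (k : ℕ) : rt (2 ^ k - 1) ^ 4 = 2 ^ k := by
  rw [rt_four]
  have : 1 ≤ 2 ^ k := Nat.one_le_two_pow
  push_cast [Nat.cast_sub this]
  ring

/-- A summable bound for the survival probabilities along powers of two. -/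
lemma summable_levels {C R a : ℝ} (ha : 0 ≤ a) (hR : 0 ≤ R) (hC : 0 ≤ C) :
    Summable (fun k : ℕ => C * √(2 * k + R + a) / rt (2 ^ k - 1)) := by
  set r : ℝ := √(√(2⁻¹ : ℝ)) with hr
  have hr0 : 0 < r := by rw [hr]; positivity
  have hr4 : r ^ 4 = 2⁻¹ := by
    calc r ^ 4 = (√(√(2⁻¹ : ℝ)) ^ 2) ^ 2 := by rw [hr]; ring
      _ = _ := by rw [Real.sq_sqrt (Real.sqrt_nonneg _), Real.sq_sqrt (by norm_num)]
  have hr1 : r < 1 := by
    by_contra h
    have := pow_le_pow_left₀ zero_le_one (not_lt.1 h) 4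
    rw [hr4] at this
    norm_num at this
  have hrt : ∀ k : ℕ, (rt (2 ^ k - 1))⁻¹ = r ^ k := by
    intro k
    have h1 : ((rt (2 ^ k - 1))⁻¹) ^ 4 = (r ^ k) ^ 4 := by
      rw [inv_pow, rt_two_pow, ← pow_mul, mul_comm, pow_mul, hr4, inv_pow]
    exact (pow_left_inj₀ (inv_nonneg.2 (rt_pos _).le) (by positivity) (by norm_num)).1 h1
  have h1 : Summable (fun k : ℕ => (k : ℝ) ^ 1 * r ^ k) :=
    summable_pow_mul_geometric_of_norm_lt_one 1 (by rwa [Real.norm_of_nonneg hr0.le])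
  have h2 : Summable (fun k : ℕ => r ^ k) := summable_geometric_of_lt_one hr0.le hr1
  have h3 : Summable (fun k : ℕ => C * ((2 * ((k : ℝ) ^ 1 * r ^ k)) + (R + a + 1) * r ^ k)) :=
    ((h1.mul_left 2).add (h2.mul_left _)).mul_left C
  refine Summable.of_nonneg_of_le (fun k => ?_) (fun k => ?_) h3
  · have := rt_pos (2 ^ k - 1)
    positivity
  · rw [div_eq_mul_inv, hrt]
    have h4 : √(2 * (k : ℝ) + R + a) ≤ 2 * k + (R + a + 1) := by
      rw [Real.sqrt_le_left (by positivity)]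
      have : (0 : ℝ) ≤ 2 * k + R + a := by positivity
      nlinarith
    calc C * √(2 * k + R + a) * r ^ k ≤ C * (2 * k + (R + a + 1)) * r ^ k := by gcongr
      _ = _ := by ring

theorem Chain.diverge [IsProbabilityMeasure P] (hN : 2 ≤ N) (hβ : 0 ≤ β) (hβ1 : β < 1)
    (hσ : 0 < σ) (hy : Chain P ℱ β σ y) {e0 : E N} (he0 : ‖e0‖ = 1) (hb0 : bar e0 = e0)
    (hcrit : ∫ h, Z β σ e0 h ∂(stdGaussian (E N)) = 0) {ℓ : E N → ℝ}
    (hℓ : Measurable ℓ) (hshift : ∀ x b, ℓ (x + b • one N) = ℓ x + b) :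
    ∀ᵐ ω ∂P, Tendsto (fun t => |ℓ (y t ω)|) atTop atTop := by
  have hN0 : 0 < N := by omega
  set ν := (stdGaussian (E N)).map (Z β σ e0) with hν
  have mZ := measurable_Z β σ e0
  have : IsProbabilityMeasure ν := Measure.isProbabilityMeasure_map mZ.aemeasurable
  have i1 : Integrable (fun x : ℝ => x) ν :=
    (integrable_map_measure (by fun_prop) mZ.aemeasurable).2
      (integrable_Z hN0 hβ hβ1.le hσ he0 hb0)
  have i0 : ∫ x, x ∂ν = 0 := by
    rw [hν, integral_map mZ.aemeasurable (by fun_prop)]; exact hcrit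
  have i4 : Integrable (fun x : ℝ => (max x 0) ^ 4) ν :=
    (integrable_map_measure (by fun_prop) mZ.aemeasurable).2
      (integrable_Z4 hN0 hβ hβ1.le hσ he0)
  have ineg : 0 < ν (Iio 0) := by
    rw [hν, Measure.map_apply mZ measurableSet_Iio]
    exact Z_neg hN0 hβ hβ1 hσ he0 hb0
  obtain ⟨a, κ, ha, hκ0, hd⟩ := drift ν i1 i0 i4 ineg
  set C := max 1 (1 / κ) with hCd
  have hC : 1 ≤ C := le_max_left _ _
  have hκ : 1 ≤ C ^ 4 * κ := by
    have h1 : 1 ≤ C * κ := by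
      have h3 : 1 / κ ≤ C := le_max_right _ _
      have := mul_le_mul_of_nonneg_right h3 hκ0.le
      rwa [div_mul_cancel₀ _ hκ0.ne'] at this
    have h2 : C ≤ C ^ 4 := le_self_pow₀ hC (by norm_num)
    nlinarith
  have halive := fun g => hy.alive hN0 hσ.ne' he0 hb0 ha hC hκ hd g
  have mL : ∀ t, Measurable[ℱ t] (fun ω => L (y t ω)) := fun t => measurable_L.comp (hy.meas t)
  -- levels are passed in time
  have hA : ∀ R : ℕ, ∀ᵐ ω ∂P, -(R : ℝ) ≤ L (y 0 ω) →
      ∀ᶠ k : ℕ in atTop, ∃ s ≤ 2 ^ k - 1, 2 * (k : ℝ) < L (y s ω) := by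
    intro R
    set H : Set Ω := {ω | -(R : ℝ) ≤ L (y 0 ω)} with hH
    have mH : MeasurableSet[ℱ 0] H := measurableSet_le measurable_const (mL 0)
    set A : ℕ → Set Ω := fun k => H ∩ {ω | ∀ s ≤ 2 ^ k - 1, L (y (0 + s) ω) ≤ 2 * (k : ℝ)} with hAd
    have hPA : ∀ k, P (A k) ≤ ENNReal.ofReal (C * √(2 * k + R + a) / rt (2 ^ k - 1)) := by
      intro k
      refine (halive (2 * (k : ℝ)) (2 ^ k - 1) 0 H mH).trans ?_
      have hr := rt_pos (2 ^ k - 1)
      calc ∫⁻ ω in H, ENNReal.ofReal (F a C (2 ^ k - 1) (2 * (k : ℝ) - L (y 0 ω))) ∂P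
          ≤ ∫⁻ _ in H, ENNReal.ofReal (C * √(2 * k + R + a) / rt (2 ^ k - 1)) ∂P := by
            apply setLIntegral_mono measurable_const
            intro ω hω
            have hω' : -(R : ℝ) ≤ L (y 0 ω) := hω
            apply ENNReal.ofReal_le_ofReal
            by_cases hx : 0 ≤ 2 * (k : ℝ) - L (y 0 ω)
            · refine (F_bound _ hx).trans ?_
              gcongr
              linarith
            · unfold F
              rw [indicator_of_notMem (show 2 * (k : ℝ) - L (y 0 ω) ∉ Ici (0 : ℝ) from hx)]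
              positivity
        _ ≤ ∫⁻ _, ENNReal.ofReal (C * √(2 * k + R + a) / rt (2 ^ k - 1)) ∂P :=
            setLIntegral_le_lintegral _ _
        _ = _ := by simp
    have hsum : ∑' k, P (A k) ≠ ∞ := by
      have hs := summable_levels (C := C) (R := R) (a := a) (by linarith) (by positivity)
        (by linarith)
      refine ne_top_of_le_ne_top ?_ (ENNReal.tsum_le_tsum hPA)
      rw [← ENNReal.ofReal_tsum_of_nonneg (fun k => by
        have := rt_pos (2 ^ k - 1); positivity) hs]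
      exact ENNReal.ofReal_ne_top
    filter_upwards [ae_eventually_notMem hsum] with ω hω hωH
    filter_upwards [hω] with k hk
    by_contra hcon
    apply hk
    refine ⟨hωH, fun s hs => ?_⟩
    rw [zero_add]
    by_contra h
    exact hcon ⟨s, hs, not_le.1 h⟩
  have hA' : ∀ᵐ ω ∂P, ∀ᶠ k : ℕ in atTop, ∃ s ≤ 2 ^ k - 1, 2 * (k : ℝ) < L (y s ω) := by
    filter_upwards [ae_all_iff.2 hA] with ω hω
    obtain ⟨R, hR⟩ := exists_nat_ge (-L (y 0 ω))
    exact hω R (by linarith)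
  -- slabs are avoided after large levels
  have hB : ∀ K : ℕ, ∀ᵐ ω ∂P, ∀ᶠ t : ℕ in atTop,
      ¬ (|ℓ (y t ω)| ≤ K ∧ ∃ s < t, 2 * (Nat.log 2 t : ℝ) < L (y s ω)) := by
    intro K
    set Bs : ℕ → Set Ω := fun t => univ ∩ {ω | |ℓ (y (0 + t) ω)| ≤ K ∧
      ∃ s < t, 2 * (Nat.log 2 t : ℝ) < L (y (0 + s) ω)} with hBd
    have hPB : ∀ t, P (Bs t) ≤ ENNReal.ofReal (√N / (√(2 * Real.pi) * σ) * (2 * |(K : ℝ)|) *
        Real.exp (-(2 * (Nat.log 2 t : ℝ)))) := by
      intro t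
      have := hy.hit hN0 hσ hℓ hshift (K := K) (2 * (Nat.log 2 t : ℝ)) t 0 univ
        MeasurableSet.univ
      rwa [measure_univ, mul_one] at this
    have hsum : ∑' t, P (Bs t) ≠ ∞ := by
      have hs := summable_exp_log (√N / (√(2 * Real.pi) * σ) * (2 * |(K : ℝ)|))
      refine ne_top_of_le_ne_top ?_ (ENNReal.tsum_le_tsum hPB)
      rw [← ENNReal.ofReal_tsum_of_nonneg (fun k => by positivity) hs]
      exact ENNReal.ofReal_ne_top
    filter_upwards [ae_eventually_notMem hsum] with ω hω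
    filter_upwards [hω] with t ht hcon
    apply ht
    refine ⟨mem_univ _, ?_⟩
    simpa using hcon
  filter_upwards [hA', ae_all_iff.2 hB] with ω hω hωB
  rw [tendsto_atTop]
  intro b
  obtain ⟨K, hK⟩ := exists_nat_ge b
  obtain ⟨k0, hk0⟩ := eventually_atTop.1 hω
  filter_upwards [hωB K, eventually_ge_atTop (2 ^ k0)] with t ht ht2
  have htpos : t ≠ 0 := by
    have : 0 < 2 ^ k0 := by positivity
    omega
  have hk : k0 ≤ Nat.log 2 t := Nat.le_log_of_pow_le (by norm_num) ht2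
  obtain ⟨s, hs, hs2⟩ := hk0 _ hk
  have hst : s < t := by
    have h1 : 2 ^ Nat.log 2 t ≤ t := Nat.pow_log_le_self 2 htpos
    have h2 : 0 < 2 ^ Nat.log 2 t := by positivity
    omega
  by_contra hcon
  exact ht ⟨by linarith [not_le.1 hcon], s, hst, hs2⟩

end Pool.Agent.Q240.GC
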