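import Mathlib

/-!
A quantitative fluctuation bound for one-dimensional centred random walks: a function `F n x`
which dominates the probability that the walk stays below the level `x` during `n` steps and
decays like `n ^ (-1/4)`.
-/

namespace Pool.Agent.Q240.GC

open MeasureTheory ProbabilityTheory Set Filter
open scoped ENNReal NNReal Topology

lemma exists_square_mass (ν : Measure ℝ) [IsProbabilityMeasure ν] (hneg : 0 < ν (Iio 0)) :
    ∃ a0 : ℝ, 0 < a0 ∧ 0 < ∫ x in Icc (-a0) 0, x ^ 2 ∂ν := by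
  have h1 : ∃ n : ℕ, 0 < ν (Ico (-(n : ℝ)) 0) := by
    by_contra hcon
    simp only [not_exists, not_lt, nonpos_iff_eq_zero] at hcon
    have h2 : Iio (0 : ℝ) = ⋃ n : ℕ, Ico (-(n : ℝ)) 0 := by
      ext x
      simp only [mem_Iio, mem_iUnion, mem_Ico]
      constructor
      · intro hx
        obtain ⟨n, hn⟩ := exists_nat_ge (-x)
        exact ⟨n, by linarith, hx⟩
      · rintro ⟨n, _, h⟩; exact h
    rw [h2, measure_iUnion_null_iff.2 hcon] at hneg
    exact lt_irrefl _ hneg
  obtain ⟨n, hn⟩ := h1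
  refine ⟨n + 1, by positivity, ?_⟩
  have hint : IntegrableOn (fun x : ℝ => x ^ 2) (Icc (-((n : ℝ) + 1)) 0) ν :=
    (continuous_pow 2).continuousOn.integrableOn_compact isCompact_Icc
  rw [setIntegral_pos_iff_support_of_nonneg_ae]
  · refine lt_of_lt_of_le hn (measure_mono ?_)
    intro x hx
    refine ⟨?_, by linarith [hx.1], hx.2.le⟩
    rw [Function.mem_support]
    have : x ≠ 0 := ne_of_lt hx.2
    positivity
  · exact Eventually.of_forall fun x => sq_nonneg x
  · exact hint

lemma square_mass_mono (ν : Measure ℝ) [IsProbabilityMeasure ν] {a0 a : ℝ} (h : a0 ≤ a) :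
    ∫ x in Icc (-a0) 0, x ^ 2 ∂ν ≤ ∫ x in Icc (-a) 0, x ^ 2 ∂ν := by
  apply setIntegral_mono_set
  · exact (continuous_pow 2).continuousOn.integrableOn_compact isCompact_Icc
  · exact Eventually.of_forall fun x => sq_nonneg x
  · exact (Icc_subset_Icc_left (by linarith)).eventuallyLE

/-- The pointwise inequality behind the drift estimate. -/
lemma pointwise {a y x : ℝ} (ha : 0 < a) (hy : a ≤ y) :
    (Iic (y - a)).indicator (fun x => √(y - x)) x ≤
      √y * ((1 - x / (2 * y)) + (max x 0) ^ 4 / (16 * y ^ 4) -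
        (Icc (-a) 0).indicator (fun x => x ^ 2) x / (16 * y ^ 2)) := by
  have hy0 : 0 < y := lt_of_lt_of_le ha hy
  have hs : 0 ≤ √y := Real.sqrt_nonneg y
  by_cases hx : x ∈ Iic (y - a)
  · rw [indicator_of_mem hx]
    have hx' : x ≤ y - a := hx
    have hm : 0 ≤ (max x 0) ^ 4 / (16 * y ^ 4) := by positivity
    set z := x / y with hz
    have hxz : x = z * y := by rw [hz]; field_simp
    have e1 : √(y - x) = √y * √(1 - z) := by
      rw [← Real.sqrt_mul hy0.le]; congr 1; rw [hxz]; ring
    rw [e1]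
    apply mul_le_mul_of_nonneg_left _ hs
    have hz1 : z < 1 := by rw [hz, div_lt_one hy0]; linarith
    have e2 : x / (2 * y) = z / 2 := by rw [hz]; field_simp
    rw [e2]
    by_cases hmem : x ∈ Icc (-a) 0
    · rw [indicator_of_mem hmem]
      have hz0 : z ≤ 0 := div_nonpos_of_nonpos_of_nonneg hmem.2 hy0.le
      have hz2 : -1 ≤ z := by
        rw [hz, le_div_iff₀ hy0]; linarith [hmem.1]
      have e3 : x ^ 2 / (16 * y ^ 2) = z ^ 2 / 16 := by rw [hz]; field_simp
      rw [e3]
      have h1 : √(1 - z) ≤ 1 - z / 2 - z ^ 2 / 16 := by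
        rw [Real.sqrt_le_left (by nlinarith)]
        nlinarith [sq_nonneg z, mul_nonneg (sq_nonneg z) (by linarith : 0 ≤ 2 + z),
          sq_nonneg (z ^ 2)]
      linarith
    · rw [indicator_of_notMem hmem]
      have h1 : √(1 - z) ≤ 1 - z / 2 := by
        rw [Real.sqrt_le_left (by linarith)]
        nlinarith [sq_nonneg z]
      simp only [zero_div, sub_zero]
      linarith
  · rw [indicator_of_notMem hx]
    have hx' : y - a < x := not_le.1 hx
    have hx0 : 0 < x := by linarith
    have hmem : x ∉ Icc (-a) 0 := fun h => absurd h.2 (not_le.2 hx0)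
    rw [indicator_of_notMem hmem, zero_div, sub_zero, max_eq_left hx0.le]
    apply mul_nonneg hs
    have e3 : x ^ 4 / (16 * y ^ 4) = (x / (2 * y)) ^ 4 := by field_simp; ring
    rw [e3]
    set u := x / (2 * y) with hu
    have hu0 : 0 < u := by positivity
    rcases le_total u 1 with h | h
    · have : 0 ≤ u ^ 4 := by positivity
      linarith
    · have : u ≤ u ^ 4 := le_self_pow₀ h (by norm_num)
      linarith

/-- The drift estimate. -/
lemma drift (ν : Measure ℝ) [IsProbabilityMeasure ν] (h1 : Integrable (fun x : ℝ => x) ν)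
    (h0 : ∫ x, x ∂ν = 0) (h4 : Integrable (fun x : ℝ => (max x 0) ^ 4) ν)
    (hneg : 0 < ν (Iio 0)) : ∃ a κ : ℝ, 1 ≤ a ∧ 0 < κ ∧
      ∀ y, a ≤ y → IntegrableOn (fun x => √(y - x)) (Iic (y - a)) ν ∧
        ∫ x in Iic (y - a), √(y - x) ∂ν ≤ √y * (1 - κ / y ^ 2) := by
  obtain ⟨a0, ha0, hm0⟩ := exists_square_mass ν hneg
  set m0 := ∫ x in Icc (-a0) 0, x ^ 2 ∂ν with hm0d
  set m4 := ∫ x, (max x 0) ^ 4 ∂ν with hm4d
  have hm4 : 0 ≤ m4 := integral_nonneg fun x => by positivity
  set a := max (max a0 1) (2 * m4 / m0) with ha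
  have ha1 : 1 ≤ a := (le_max_right _ _).trans (le_max_left _ _)
  have haa0 : a0 ≤ a := (le_max_left _ _).trans (le_max_left _ _)
  have ham : 2 * m4 / m0 ≤ a := le_max_right _ _
  set m2 := ∫ x in Icc (-a) 0, x ^ 2 ∂ν with hm2d
  have hm2 : m0 ≤ m2 := square_mass_mono ν haa0
  have hm2pos : 0 < m2 := lt_of_lt_of_le hm0 hm2
  refine ⟨a, m2 / 32, ha1, by positivity, fun y hy => ?_⟩
  have hy1 : 1 ≤ y := ha1.trans hy
  have hy0 : 0 < y := by linarith
  have i2 : Integrable ((Icc (-a) 0).indicator (fun x : ℝ => x ^ 2)) ν := by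
    rw [integrable_indicator_iff measurableSet_Icc]
    exact (continuous_pow 2).continuousOn.integrableOn_compact isCompact_Icc
  have iR : Integrable (fun x => √y * ((1 - x / (2 * y)) + (max x 0) ^ 4 / (16 * y ^ 4) -
        (Icc (-a) 0).indicator (fun x => x ^ 2) x / (16 * y ^ 2))) ν :=
    ((((integrable_const 1).sub (h1.div_const _)).add (h4.div_const _)).sub
      (i2.div_const _)).const_mul _
  have iL : Integrable ((Iic (y - a)).indicator (fun x => √(y - x))) ν := by
    refine iR.mono' ?_ ?_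
    · exact ((by fun_prop : Measurable (fun x : ℝ => √(y - x))).indicator
        measurableSet_Iic).aestronglyMeasurable
    · filter_upwards with x
      rw [Real.norm_of_nonneg (indicator_nonneg (fun _ _ => Real.sqrt_nonneg _) x)]
      exact pointwise (by linarith) hy
  refine ⟨(integrable_indicator_iff measurableSet_Iic).1 iL, ?_⟩
  rw [← integral_indicator measurableSet_Iic]
  have iA : Integrable (fun x : ℝ => 1 - x / (2 * y)) ν :=
    (integrable_const 1).sub (h1.div_const _)
  have iB : Integrable (fun x : ℝ => 1 - x / (2 * y) + (max x 0) ^ 4 / (16 * y ^ 4)) ν :=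
    iA.add (h4.div_const _)
  calc ∫ x, (Iic (y - a)).indicator (fun x => √(y - x)) x ∂ν
      ≤ ∫ x, √y * ((1 - x / (2 * y)) + (max x 0) ^ 4 / (16 * y ^ 4) -
        (Icc (-a) 0).indicator (fun x => x ^ 2) x / (16 * y ^ 2)) ∂ν :=
        integral_mono iL iR fun x => pointwise (by linarith) hy
    _ = √y * (1 + m4 / (16 * y ^ 4) - m2 / (16 * y ^ 2)) := by
        rw [integral_const_mul, integral_sub iB (i2.div_const _), integral_add iA
          (h4.div_const _), integral_sub (integrable_const 1) (h1.div_const _), integral_div, integral_div, integral_div, h0, integral_indicator measurableSet_Icc]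
        simp [hm4d, hm2d]
    _ ≤ √y * (1 - m2 / 32 / y ^ 2) := by
        apply mul_le_mul_of_nonneg_left _ (Real.sqrt_nonneg _)
        have h5 : 2 * m4 ≤ m2 * y ^ 2 := by
          have h6 : 2 * m4 ≤ m0 * a := by
            rw [div_le_iff₀ hm0] at ham; linarith
          have h7 : m0 * a ≤ m2 * y := mul_le_mul hm2 hy (by linarith) hm2pos.le
          have h8 : m2 * y ≤ m2 * y ^ 2 := by
            apply mul_le_mul_of_nonneg_left _ hm2pos.le; nlinarith
          linarith
        have h9 : m4 / (16 * y ^ 4) ≤ m2 / (32 * y ^ 2) := by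
          rw [div_le_div_iff₀ (by positivity) (by positivity)]
          have : 0 ≤ y ^ 2 := by positivity
          nlinarith [mul_le_mul_of_nonneg_right h5 this]
        have h10 : m2 / 32 / y ^ 2 = m2 / (32 * y ^ 2) := by rw [div_div]
        have h11 : m2 / (16 * y ^ 2) = 2 * (m2 / (32 * y ^ 2)) := by field_simp; ring
        rw [h10, h11]
        linarith

/-- Fourth root of `n + 1`. -/
noncomputable def rt (n : ℕ) : ℝ := √(√((n : ℝ) + 1))

lemma rt_pos (n : ℕ) : 0 < rt n := by unfold rt; positivity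

lemma rt_four (n : ℕ) : rt n ^ 4 = n + 1 := by
  unfold rt
  have h1 : (0 : ℝ) ≤ (n : ℝ) + 1 := by positivity
  calc √(√((n : ℝ) + 1)) ^ 4 = (√(√((n : ℝ) + 1)) ^ 2) ^ 2 := by ring
    _ = _ := by rw [Real.sq_sqrt (Real.sqrt_nonneg _), Real.sq_sqrt h1]

lemma rt_mono {n m : ℕ} (h : n ≤ m) : rt n ≤ rt m := by
  unfold rt
  have : (n : ℝ) ≤ m := by exact_mod_cast h
  gcongr

/-- Dominating function for the probability of staying below the level `x` for `n` steps. -/
noncomputable def F (a C : ℝ) (n : ℕ) (x : ℝ) : ℝ :=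
  (Ici (0 : ℝ)).indicator (fun x => min 1 (C * √(x + a) / rt n)) x

lemma F_nonneg {a C : ℝ} (hC : 0 ≤ C) (n : ℕ) (x : ℝ) : 0 ≤ F a C n x := by
  unfold F
  apply indicator_nonneg
  intro x _
  have := rt_pos n
  positivity

lemma F_le_one {a C : ℝ} (n : ℕ) (x : ℝ) : F a C n x ≤ 1 := by
  unfold F
  by_cases h : x ∈ Ici (0 : ℝ)
  · rw [indicator_of_mem h]; exact min_le_left _ _
  · rw [indicator_of_notMem h]; exact zero_le_one

lemma measurable_F (a C : ℝ) (n : ℕ) : Measurable (F a C n) := by
  unfold F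
  exact (by fun_prop : Measurable (fun x : ℝ => min 1 (C * √(x + a) / rt n))).indicator
    measurableSet_Ici

lemma F_zero {a C : ℝ} (ha : 1 ≤ a) (hC : 1 ≤ C) {x : ℝ} (hx : 0 ≤ x) : F a C 0 x = 1 := by
  unfold F
  rw [indicator_of_mem (show x ∈ Ici (0 : ℝ) from hx)]
  apply min_eq_left
  have h1 : rt 0 = 1 := by unfold rt; simp
  rw [h1, div_one]
  have h2 : 1 ≤ √(x + a) := by rw [Real.one_le_sqrt]; linarith
  nlinarith

lemma F_bound {a C : ℝ} (n : ℕ) {x : ℝ} (hx : 0 ≤ x) :
    F a C n x ≤ C * √(x + a) / rt n := by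
  unfold F
  rw [indicator_of_mem (show x ∈ Ici (0 : ℝ) from hx)]
  exact min_le_right _ _

lemma F_step (ν : Measure ℝ) [IsProbabilityMeasure ν] {a κ C : ℝ} (ha : 1 ≤ a) (hC : 1 ≤ C)
    (hκ : 1 ≤ C ^ 4 * κ)
    (hd : ∀ y, a ≤ y → IntegrableOn (fun x => √(y - x)) (Iic (y - a)) ν ∧
      ∫ x in Iic (y - a), √(y - x) ∂ν ≤ √y * (1 - κ / y ^ 2))
    (n : ℕ) {x : ℝ} (hx : 0 ≤ x) : ∫ t, F a C n (x - t) ∂ν ≤ F a C (n + 1) x := by
  have hC0 : 0 < C := by linarith
  have hκ0 : 0 < κ := by
    by_contra h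
    have : C ^ 4 * κ ≤ 0 := mul_nonpos_of_nonneg_of_nonpos (by positivity) (not_lt.1 h)
    linarith
  have mF : Measurable (fun t => F a C n (x - t)) :=
    (measurable_F a C n).comp (measurable_const.sub measurable_id)
  have iF : Integrable (fun t => F a C n (x - t)) ν := by
    refine (integrable_const (1 : ℝ)).mono' mF.aestronglyMeasurable ?_
    filter_upwards with t
    rw [Real.norm_of_nonneg (F_nonneg hC0.le _ _)]
    exact F_le_one _ _
  by_cases hbig : 1 ≤ C * √(x + a) / rt (n + 1)
  · have h1 : F a C (n + 1) x = 1 := by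
      unfold F
      rw [indicator_of_mem (show x ∈ Ici (0 : ℝ) from hx)]
      exact min_eq_left hbig
    rw [h1]
    calc ∫ t, F a C n (x - t) ∂ν ≤ ∫ _, (1 : ℝ) ∂ν :=
          integral_mono iF (integrable_const _) fun t => F_le_one _ _
      _ = 1 := by simp
  · rw [not_le] at hbig
    have h1 : F a C (n + 1) x = C * √(x + a) / rt (n + 1) := by
      unfold F
      rw [indicator_of_mem (show x ∈ Ici (0 : ℝ) from hx)]
      exact min_eq_right hbig.le
    rw [h1]
    set y := x + a with hy
    have hya : a ≤ y := by linarith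
    have hy1 : 1 ≤ y := by linarith
    have hy0 : 0 < y := by linarith
    have hr := rt_pos n
    have hr1 := rt_pos (n + 1)
    obtain ⟨iS, hS⟩ := hd y hya
    have iS' : Integrable ((Iic (y - a)).indicator (fun t => C / rt n * √(y - t))) ν :=
      (integrable_indicator_iff measurableSet_Iic).2 (iS.const_mul _)
    have h2 : ∫ t, F a C n (x - t) ∂ν ≤ C / rt n * ∫ t in Iic (y - a), √(y - t) ∂ν := by
      rw [← integral_const_mul, ← integral_indicator measurableSet_Iic]
      refine integral_mono iF iS' fun t => ?_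
      by_cases ht : t ∈ Iic (y - a)
      · rw [indicator_of_mem ht]
        have ht' : t ≤ y - a := ht
        have h3 := F_bound (a := a) (C := C) n (x := x - t) (by linarith)
        have e1 : x - t + a = y - t := by rw [hy]; ring
        rw [e1] at h3
        calc _ ≤ _ := h3
          _ = _ := by ring
      · rw [indicator_of_notMem ht]
        have ht' : y - a < t := not_le.1 ht
        unfold F
        rw [indicator_of_notMem (show x - t ∉ Ici (0 : ℝ) from by
          rw [mem_Ici, not_le]; linarith)]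
    refine h2.trans ?_
    have hsy : 0 < √y := Real.sqrt_pos.2 hy0
    -- the bound on `y`
    have h5 : C ^ 4 * y ^ 2 ≤ n + 2 := by
      rw [div_lt_one hr1] at hbig
      have h6 : (C * √y) ^ 4 ≤ rt (n + 1) ^ 4 := pow_le_pow_left₀ (by positivity) hbig.le 4
      rw [rt_four, mul_pow] at h6
      have h7 : √y ^ 4 = y ^ 2 := by
        calc √y ^ 4 = (√y ^ 2) ^ 2 := by ring
          _ = _ := by rw [Real.sq_sqrt hy0.le]
      rw [h7] at h6
      push_cast at h6
      linarith
    have h8 : 1 / ((n : ℝ) + 2) ≤ κ / y ^ 2 := by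
      rw [div_le_div_iff₀ (by positivity) (by positivity)]
      have h9 : (1 : ℝ) * y ^ 2 ≤ (C ^ 4 * κ) * y ^ 2 :=
        mul_le_mul_of_nonneg_right hκ (by positivity)
      calc 1 * y ^ 2 ≤ (C ^ 4 * κ) * y ^ 2 := h9
        _ = κ * (C ^ 4 * y ^ 2) := by ring
        _ ≤ κ * (n + 2) := mul_le_mul_of_nonneg_left h5 hκ0.le
    have h10 : (1 - κ / y ^ 2) * rt (n + 1) ≤ rt n := by
      have h11 : 1 - κ / y ^ 2 ≤ ((n : ℝ) + 1) / (n + 2) := by
        have : ((n : ℝ) + 1) / (n + 2) = 1 - 1 / (n + 2) := by field_simp; ring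
        rw [this]; linarith
      have h12 : ((n : ℝ) + 1) / (n + 2) = rt n ^ 4 / rt (n + 1) ^ 4 := by
        rw [rt_four, rt_four]; push_cast; congr 1; ring
      calc (1 - κ / y ^ 2) * rt (n + 1) ≤ (rt n ^ 4 / rt (n + 1) ^ 4) * rt (n + 1) := by
            rw [← h12]; exact mul_le_mul_of_nonneg_right h11 hr1.le
        _ = rt n * (rt n ^ 3 / rt (n + 1) ^ 3) := by field_simp
        _ ≤ rt n * 1 := by
            apply mul_le_mul_of_nonneg_left _ hr.le
            rw [div_le_one (by positivity)]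
            exact pow_le_pow_left₀ hr.le (rt_mono (by omega)) 3
        _ = rt n := mul_one _
    calc C / rt n * ∫ t in Iic (y - a), √(y - t) ∂ν
        ≤ C / rt n * (√y * (1 - κ / y ^ 2)) :=
          mul_le_mul_of_nonneg_left hS (by positivity)
      _ = (C * √y) / (rt n * rt (n + 1)) * ((1 - κ / y ^ 2) * rt (n + 1)) := by
          field_simp
      _ ≤ (C * √y) / (rt n * rt (n + 1)) * rt n :=
          mul_le_mul_of_nonneg_left h10 (by positivity)
      _ = C * √y / rt (n + 1) := by field_simp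

end Pool.Agent.Q240.GC
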