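import Mathlib

/-!
The one-dimensional Gaussian consensus map: centering, orthogonal splitting of the standard
Gaussian measure, rotation invariance, and moments of the logarithmic increment.
-/

namespace Pool.Agent.Q240.GC

open MeasureTheory ProbabilityTheory Set Filter WithLp
open scoped ENNReal NNReal Topology RealInnerProductSpace

/-- Euclidean space of dimension `N`. -/
abbrev E (N : ℕ) := EuclideanSpace ℝ (Fin N)

/-- The vector with all coordinates one. -/
noncomputable def one (N : ℕ) : E N := toLp 2 (fun _ => 1)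

/-- Average of the coordinates. -/
noncomputable def mean {N : ℕ} (y : E N) : ℝ := (∑ i, y i) / N

/-- Centering. -/
noncomputable def bar {N : ℕ} (y : E N) : E N := y - mean y • one N

variable {N : ℕ}

@[simp] lemma one_apply (i : Fin N) : one N i = 1 := rfl

lemma bar_apply (y : E N) (i : Fin N) : bar y i = y i - mean y := by
  simp [bar]

lemma mean_add (x y : E N) : mean (x + y) = mean x + mean y := by
  simp [mean, Finset.sum_add_distrib, add_div]

lemma mean_smul (c : ℝ) (y : E N) : mean (c • y) = c * mean y := by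
  simp [mean, ← Finset.mul_sum, mul_div_assoc]

lemma mean_one (hN : 0 < N) : mean (one N) = 1 := by
  have : (N : ℝ) ≠ 0 := by exact_mod_cast hN.ne'
  simp [mean, this]

lemma inner_eq (x y : E N) : ⟪x, y⟫ = ∑ i, x i * y i := by
  simp [PiLp.inner_apply, mul_comm]

lemma mean_eq_inner (y : E N) : mean y = ⟪one N, y⟫ / N := by
  rw [inner_eq]; simp [mean]

lemma bar_add (x y : E N) : bar (x + y) = bar x + bar y := by
  unfold bar; rw [mean_add]; module

lemma bar_smul (c : ℝ) (y : E N) : bar (c • y) = c • bar y := by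
  unfold bar; rw [mean_smul]; module

lemma bar_one (hN : 0 < N) : bar (one N) = 0 := by
  unfold bar; rw [mean_one hN]; simp

lemma mean_bar (hN : 0 < N) (y : E N) : mean (bar y) = 0 := by
  have : bar y = y + (-mean y) • one N := by unfold bar; module
  rw [this, mean_add, mean_smul, mean_one hN]; ring

lemma bar_bar (hN : 0 < N) (y : E N) : bar (bar y) = bar y := by
  conv_lhs => unfold bar
  change bar y - mean (bar y) • one N = bar y
  rw [mean_bar hN]; simp

lemma inner_one_bar (hN : 0 < N) (y : E N) : ⟪one N, bar y⟫ = 0 := by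
  have h := mean_eq_inner (bar y)
  rw [mean_bar hN] at h
  have : (N : ℝ) ≠ 0 := by exact_mod_cast hN.ne'
  field_simp at h
  linarith

lemma inner_bar_left (hN : 0 < N) (x y : E N) : ⟪bar x, y⟫ = ⟪bar x, bar y⟫ := by
  have h : y = bar y + mean y • one N := by unfold bar; module
  conv_lhs => rw [h]
  rw [inner_add_right, inner_smul_right, real_inner_comm (one N) (bar x), inner_one_bar hN]
  simp

lemma inner_bar_comm (hN : 0 < N) (x y : E N) : ⟪bar x, y⟫ = ⟪x, bar y⟫ := by
  rw [inner_bar_left hN, real_inner_comm, ← inner_bar_left hN, real_inner_comm]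

lemma norm_one_sq (N : ℕ) : ‖one N‖ ^ 2 = N := by
  rw [← real_inner_self_eq_norm_sq, inner_eq]; simp

lemma norm_sq_split (hN : 0 < N) (t : E N) :
    ‖t‖ ^ 2 = ‖bar t‖ ^ 2 + (⟪one N, t⟫ / √N) ^ 2 := by
  have h : t = bar t + mean t • one N := by unfold bar; module
  conv_lhs => rw [h]
  rw [norm_add_sq_real, inner_smul_right, real_inner_comm (one N) (bar t), inner_one_bar hN,
    norm_smul, mul_pow, norm_one_sq, mean_eq_inner]
  have h1 : (0 : ℝ) < N := by exact_mod_cast hN
  rw [div_pow, Real.sq_sqrt h1.le, Real.norm_eq_abs, sq_abs]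
  field_simp
  ring

lemma measurable_mean : Measurable (mean : E N → ℝ) := by
  unfold mean; fun_prop

lemma measurable_bar : Measurable (bar : E N → E N) := by
  unfold bar
  exact measurable_id.sub (measurable_mean.smul_const _)

lemma continuous_mean : Continuous (mean : E N → ℝ) := by
  unfold mean; fun_prop

lemma continuous_bar : Continuous (bar : E N → E N) := by
  unfold bar
  exact continuous_id.sub (continuous_mean.smul continuous_const)

/-- The standard Gaussian measure splits along the constant direction. -/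
lemma gauss_split (hN : 0 < N) :
    ((stdGaussian (E N)).prod (gaussianReal 0 1)).map
      (fun p : E N × ℝ => bar p.1 + (p.2 / √N) • one N) = stdGaussian (E N) := by
  have m1 : Measurable (fun z : ℝ => (z / √N) • one N) :=
    (measurable_id.div_const _).smul_const _
  have e : (fun p : E N × ℝ => bar p.1 + (p.2 / √N) • one N) =
      (fun q : E N × E N => q.1 + q.2) ∘ (Prod.map bar (fun z : ℝ => (z / √N) • one N)) := rfl
  rw [e, ← Measure.map_map (by fun_prop) (measurable_bar.prodMap m1),
    ← Measure.map_prod_map _ _ measurable_bar m1]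
  have : IsProbabilityMeasure ((stdGaussian (E N)).map bar) :=
    Measure.isProbabilityMeasure_map measurable_bar.aemeasurable
  have : IsProbabilityMeasure ((gaussianReal 0 1).map (fun z : ℝ => (z / √N) • one N)) :=
    Measure.isProbabilityMeasure_map m1.aemeasurable
  have : IsProbabilityMeasure ((((stdGaussian (E N)).map bar).prod
      ((gaussianReal 0 1).map (fun z : ℝ => (z / √N) • one N))).map
      (fun q : E N × E N => q.1 + q.2)) :=
    Measure.isProbabilityMeasure_map (by fun_prop)
  apply Measure.ext_of_charFun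
  ext t
  rw [charFun_map_add_prod_eq_mul, charFun_stdGaussian]
  have h1 : charFun ((stdGaussian (E N)).map bar) t = Complex.exp (-‖bar t‖ ^ 2 / 2) := by
    rw [← charFun_stdGaussian, charFun_apply, charFun_apply,
      integral_map measurable_bar.aemeasurable (by fun_prop)]
    congr with x
    rw [inner_bar_comm hN]
  have h2 : charFun ((gaussianReal 0 1).map (fun z : ℝ => (z / √N) • one N)) t =
      Complex.exp (-((⟪one N, t⟫ / √N : ℝ) : ℂ) ^ 2 / 2) := by
    rw [charFun_apply, integral_map m1.aemeasurable (by fun_prop)]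
    have h3 : ∀ z : ℝ, ⟪(z / √N) • one N, t⟫ = (⟪one N, t⟫ / √N) * z := by
      intro z
      rw [real_inner_smul_left]; ring
    simp_rw [h3, Complex.ofReal_mul]
    rw [← charFun_apply_real, charFun_gaussianReal]
    congr 1
    push_cast
    ring
  rw [Pi.mul_apply, h1, h2, ← Complex.exp_add]
  congr 1
  have := norm_sq_split hN t
  have h4 : ((‖t‖ : ℂ)) ^ 2 = (‖bar t‖ : ℂ) ^ 2 + (((⟪one N, t⟫ / √N : ℝ)) : ℂ) ^ 2 := by
    exact_mod_cast congrArg (fun r : ℝ => (r : ℂ)) this
  rw [h4]; ring

/-- A rotation fixing the constant direction and moving one centred unit vector to another. -/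
lemma exists_rotation (hN : 0 < N) {e e' : E N} (he : ‖e‖ = 1) (he' : ‖e'‖ = 1)
    (hb : bar e = e) (hb' : bar e' = e') :
    ∃ U : E N ≃ₗᵢ[ℝ] E N, U e = e' ∧ ∀ x, bar (U x) = U (bar x) := by
  set U : E N ≃ₗᵢ[ℝ] E N := ((ℝ ∙ (e - e'))ᗮ).reflection with hU
  have h1 : U e = e' := Submodule.reflection_sub (by rw [he, he'])
  have h2 : U (one N) = one N := by
    apply Submodule.reflection_mem_subspace_eq_self
    rw [Submodule.mem_orthogonal_singleton_iff_inner_right, inner_sub_left]
    have a1 : ⟪e, one N⟫ = 0 := by rw [← hb, real_inner_comm, inner_one_bar hN]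
    have a2 : ⟪e', one N⟫ = 0 := by rw [← hb', real_inner_comm, inner_one_bar hN]
    rw [a1, a2, sub_zero]
  refine ⟨U, h1, fun x => ?_⟩
  have h3 : mean (U x) = mean x := by
    rw [mean_eq_inner, mean_eq_inner]
    conv_lhs => rw [← h2]
    rw [U.inner_map_map]
  unfold bar
  rw [map_sub, map_smul, h2, h3]

/-- Logarithmic increment of the norm of the centred state. -/
noncomputable def Z (β σ : ℝ) (e h : E N) : ℝ := Real.log ‖β • e + σ • bar h‖

lemma measurable_Z (β σ : ℝ) (e : E N) : Measurable (Z β σ e) := by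
  unfold Z
  have h1 : Measurable (fun h : E N => β • e + σ • bar h) :=
    (measurable_bar.const_smul σ).const_add _
  exact Real.measurable_log.comp h1.norm

lemma Z_law (hN : 0 < N) (β σ : ℝ) {e e' : E N} (he : ‖e‖ = 1) (he' : ‖e'‖ = 1)
    (hb : bar e = e) (hb' : bar e' = e') :
    (stdGaussian (E N)).map (Z β σ e) = (stdGaussian (E N)).map (Z β σ e') := by
  obtain ⟨U, hU, hUb⟩ := exists_rotation hN he he' hb hb'
  have h1 : Z β σ e = Z β σ e' ∘ U := by
    funext h
    unfold Z
    simp only [Function.comp]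
    rw [hUb, ← hU, ← map_smul, ← map_smul, ← map_add, U.norm_map]
  have h2 := stdGaussian_map (E := E N) U
  rw [h1, ← Measure.map_map (measurable_Z β σ e') U.continuous.measurable, h2]

lemma exists_unit (hN : 2 ≤ N) : ∃ e : E N, ‖e‖ = 1 ∧ bar e = e := by
  set i0 : Fin N := ⟨0, by omega⟩
  set i1 : Fin N := ⟨1, by omega⟩
  have hne : i0 ≠ i1 := by
    intro h; have := congrArg Fin.val h; simp [i0, i1] at this
  set v : E N := EuclideanSpace.single i0 1 - EuclideanSpace.single i1 1 with hv
  have hv0 : v ≠ 0 := by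
    intro h
    have := congrFun (congrArg ofLp h) i0
    simp [hv, hne] at this
  have hm : mean v = 0 := by
    unfold mean
    simp [hv, Finset.sum_sub_distrib]
  have hbv : bar v = v := by unfold bar; rw [hm]; simp
  refine ⟨‖v‖⁻¹ • v, ?_, ?_⟩
  · rw [norm_smul, norm_inv, norm_norm, inv_mul_cancel₀ (norm_ne_zero_iff.2 hv0)]
  · rw [bar_smul, hbv]

/-- Law of the inner product with a unit vector. -/
lemma inner_law {e : E N} (he : ‖e‖ = 1) :
    (stdGaussian (E N)).map (fun h => ⟪e, h⟫) = gaussianReal 0 1 := by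
  have h := IsGaussian.map_eq_gaussianReal (μ := stdGaussian (E N)) (innerSL ℝ e)
  rw [integral_strongDual_stdGaussian, variance_dual_stdGaussian] at h
  simp only [innerSL_apply_norm, he, one_pow, Real.toNNReal_one] at h
  exact h

/-- The logarithm is integrable for nondegenerate Gaussian measures. -/
lemma integrable_log_gaussian (m : ℝ) {v : ℝ≥0} (hv : v ≠ 0) :
    Integrable Real.log (gaussianReal m v) := by
  have hsplit : Integrable Real.log ((gaussianReal m v).restrict (Icc (-1) 1)) ∧
      Integrable Real.log ((gaussianReal m v).restrict (Icc (-1) 1)ᶜ) := by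
    constructor
    · have h1 : IntegrableOn Real.log (Icc (-1 : ℝ) 1) volume := by
        rw [integrableOn_Icc_iff_integrableOn_Ioc,
          ← intervalIntegrable_iff_integrableOn_Ioc_of_le (by norm_num)]
        exact intervalIntegral.intervalIntegrable_log'
      set c : ℝ≥0∞ := ENNReal.ofReal (√(2 * Real.pi * v))⁻¹ with hc
      have h2 : (gaussianReal m v).restrict (Icc (-1) 1) ≤
          c • (volume.restrict (Icc (-1 : ℝ) 1)) := by
        rw [← Measure.restrict_smul]
        apply Measure.restrict_mono_measure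
        rw [gaussianReal_of_var_ne_zero m hv]
        refine Measure.le_iff.2 fun s hs => ?_
        rw [withDensity_apply _ hs, Measure.smul_apply, smul_eq_mul, ← setLIntegral_const]
        apply setLIntegral_mono measurable_const
        intro x _
        rw [hc]
        unfold gaussianPDF
        apply ENNReal.ofReal_le_ofReal
        unfold gaussianPDFReal
        have : Real.exp (-(x - m) ^ 2 / (2 * v)) ≤ 1 := by
          rw [Real.exp_le_one_iff]
          apply div_nonpos_of_nonpos_of_nonneg
          · nlinarith [sq_nonneg (x - m)]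
          · positivity
        have h0 : 0 ≤ (√(2 * Real.pi * v))⁻¹ := by positivity
        nlinarith
      exact (h1.smul_measure ENNReal.ofReal_ne_top).mono_measure h2
    · have h1 : Integrable (fun x : ℝ => x) (gaussianReal m v) :=
        (memLp_id_gaussianReal' 1 (by norm_num)).integrable le_rfl
      refine (h1.norm.restrict (s := (Icc (-1) 1)ᶜ)).mono'
        Real.measurable_log.aestronglyMeasurable ?_
      filter_upwards [ae_restrict_mem measurableSet_Icc.compl] with x hx
      have hx' : 1 < |x| := by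
        by_contra h
        exact hx (abs_le.1 (not_lt.1 h))
      rw [Real.norm_eq_abs, Real.norm_eq_abs, ← Real.log_abs, abs_of_nonneg (Real.log_nonneg hx'.le)]
      have := Real.log_le_sub_one_of_pos (one_pos.trans hx')
      linarith
  have h := hsplit.1.add_measure hsplit.2
  rwa [Measure.restrict_add_restrict_compl measurableSet_Icc] at h

lemma inner_affine (hN : 0 < N) (β σ : ℝ) {e : E N} (he : ‖e‖ = 1) (hb : bar e = e) (h : E N) :
    ⟪e, β • e + σ • bar h⟫ = β + σ * ⟪e, h⟫ := by
  rw [inner_add_right, inner_smul_right, inner_smul_right, real_inner_self_eq_norm_sq, he,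
    ← inner_bar_comm hN, hb]
  ring

lemma affine_ne (β : ℝ) {σ : ℝ} (hσ : σ ≠ 0) {e : E N} (he : ‖e‖ = 1) : ∀ᵐ h ∂(stdGaussian (E N)), β + σ * ⟪e, h⟫ ≠ 0 := by
  have h1 : ∀ᵐ z ∂(gaussianReal 0 1), β + σ * z ≠ 0 := by
    have := nullSingletonClass_gaussianReal (μ := 0) (v := 1) one_ne_zero
    rw [ae_iff]
    have h2 : {z : ℝ | ¬ (β + σ * z ≠ 0)} ⊆ {-β / σ} := by
      intro z hz
      have hz' : β + σ * z = 0 := by simpa using hz
      rw [mem_singleton_iff, eq_div_iff hσ]
      linarith
    exact measure_mono_null h2 (measure_singleton _)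
  rw [← inner_law he] at h1
  exact ae_of_ae_map (f := fun h : E N => ⟪e, h⟫) (p := fun z => β + σ * z ≠ 0)
    (Measurable.aemeasurable (by fun_prop)) h1

lemma norm_ne (hN : 0 < N) (β : ℝ) {σ : ℝ} (hσ : σ ≠ 0) {e : E N} (he : ‖e‖ = 1)
    (hb : bar e = e) : ∀ᵐ h ∂(stdGaussian (E N)), ‖β • e + σ • bar h‖ ≠ 0 := by
  filter_upwards [affine_ne β hσ he] with h hh h0
  apply hh
  rw [← inner_affine hN β σ he hb, norm_eq_zero.1 h0, inner_zero_right]

lemma norm_bar_le (hN : 0 < N) (h : E N) : ‖bar h‖ ≤ ‖h‖ := by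
  have h1 := norm_sq_split hN h
  have h2 : ‖bar h‖ ^ 2 ≤ ‖h‖ ^ 2 := by rw [h1]; nlinarith [sq_nonneg (⟪one N, h⟫ / √N)]
  exact (sq_le_sq₀ (norm_nonneg _) (norm_nonneg _)).1 h2

lemma norm_affine_le (hN : 0 < N) {β σ : ℝ} (hβ : 0 ≤ β) (hβ1 : β ≤ 1) (hσ : 0 ≤ σ) {e : E N}
    (he : ‖e‖ = 1) (h : E N) : ‖β • e + σ • bar h‖ ≤ 1 + σ * ‖h‖ := by
  calc ‖β • e + σ • bar h‖ ≤ ‖β • e‖ + ‖σ • bar h‖ := norm_add_le _ _
    _ = β + σ * ‖bar h‖ := by
        rw [norm_smul, norm_smul, he, Real.norm_of_nonneg hβ, Real.norm_of_nonneg hσ, mul_one]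
    _ ≤ 1 + σ * ‖h‖ := by
        have := norm_bar_le hN h
        nlinarith

lemma integrable_Z (hN : 0 < N) {β σ : ℝ} (hβ : 0 ≤ β) (hβ1 : β ≤ 1) (hσ : 0 < σ) {e : E N}
    (he : ‖e‖ = 1) (hb : bar e = e) : Integrable (Z β σ e) (stdGaussian (E N)) := by
  have h1 : Integrable (fun h : E N => h) (stdGaussian (E N)) := IsGaussian.integrable_fun_id
  have h2 : Integrable (fun h : E N => Real.log (β + σ * ⟪e, h⟫)) (stdGaussian (E N)) := by
    have h3 : (stdGaussian (E N)).map (fun h => β + σ * ⟪e, h⟫) =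
        gaussianReal β (⟨σ ^ 2, sq_nonneg _⟩) := by
      have h4 := inner_law he
      have h5 : (fun h : E N => β + σ * ⟪e, h⟫) = (fun z : ℝ => β + z) ∘ (fun z : ℝ => σ * z) ∘
          (fun h : E N => ⟪e, h⟫) := rfl
      rw [h5, ← Measure.map_map (by fun_prop) (by fun_prop),
        ← Measure.map_map (by fun_prop) (by fun_prop), h4, gaussianReal_map_const_mul,
        gaussianReal_map_const_add]
      simp
      rfl
    have h6 := integrable_log_gaussian β (v := ⟨σ ^ 2, sq_nonneg _⟩) (by
      intro h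
      have := congrArg NNReal.toReal h
      have h7 : σ ^ 2 = 0 := this
      exact absurd h7 (by positivity))
    rw [← h3] at h6
    exact (integrable_map_measure Real.measurable_log.aestronglyMeasurable
      (Measurable.aemeasurable (by fun_prop))).1 h6
  have h12 : Integrable (fun h : E N => (1 + σ * ‖h‖) + ‖Real.log (β + σ * ⟪e, h⟫)‖)
      (stdGaussian (E N)) := ((integrable_const 1).add (h1.norm.const_mul σ)).add h2.norm
  refine h12.mono' (measurable_Z β σ e).aestronglyMeasurable ?_
  filter_upwards [affine_ne β hσ.ne' he, norm_ne hN β hσ.ne' he hb] with h h0 hn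
  set v := β • e + σ • bar h with hv
  have hvpos : 0 < ‖v‖ := lt_of_le_of_ne (norm_nonneg _) (Ne.symm hn)
  have hin : |β + σ * ⟪e, h⟫| ≤ ‖v‖ := by
    rw [← inner_affine hN β σ he hb h]
    calc |⟪e, v⟫| ≤ ‖e‖ * ‖v‖ := abs_real_inner_le_norm _ _
      _ = ‖v‖ := by rw [he, one_mul]
  have hle := norm_affine_le hN hβ hβ1 hσ.le he h
  change |Real.log ‖v‖| ≤ _
  rcases le_total 1 ‖v‖ with h1' | h1'
  · rw [abs_of_nonneg (Real.log_nonneg h1')]
    have := Real.log_le_sub_one_of_pos hvpos
    have h8 : 0 ≤ ‖Real.log (β + σ * ⟪e, h⟫)‖ := norm_nonneg _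
    linarith
  · rw [abs_of_nonpos (Real.log_nonpos hvpos.le h1')]
    have h9 : Real.log |β + σ * ⟪e, h⟫| ≤ Real.log ‖v‖ :=
      Real.log_le_log (abs_pos.2 h0) hin
    have h10 : -Real.log |β + σ * ⟪e, h⟫| ≤ ‖Real.log (β + σ * ⟪e, h⟫)‖ := by
      rw [Real.norm_eq_abs, Real.log_abs]; exact neg_le_abs _
    have h11 : 0 ≤ σ * ‖h‖ := by positivity
    linarith

lemma memLp4 (N : ℕ) (σ : ℝ) : MemLp (fun h : E N => 1 + σ * ‖h‖) 4 (stdGaussian (E N)) := by
  have h2 : MemLp (id : E N → E N) 4 (stdGaussian (E N)) :=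
    IsGaussian.memLp_id (stdGaussian (E N)) 4 ENNReal.ofNat_ne_top
  have h3 : MemLp (fun h : E N => ‖h‖) 4 (stdGaussian (E N)) := h2.norm
  have h4 : MemLp (fun _ : E N => (1 : ℝ)) 4 (stdGaussian (E N)) := memLp_const 1
  exact h4.add (h3.const_mul σ)

lemma int4 (N : ℕ) (σ : ℝ) :
    Integrable (fun h : E N => ‖1 + σ * ‖h‖‖ ^ 4) (stdGaussian (E N)) := by
  have := (memLp4 N σ).integrable_norm_pow (p := 4) (by norm_num)
  simpa using this

lemma integrable_Z4 (hN : 0 < N) {β σ : ℝ} (hβ : 0 ≤ β) (hβ1 : β ≤ 1) (hσ : 0 < σ) {e : E N}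
    (he : ‖e‖ = 1) : Integrable (fun h => (max (Z β σ e h) 0) ^ 4) (stdGaussian (E N)) := by
  have h3 := int4 N σ
  refine h3.mono' ((((measurable_Z β σ e).max measurable_const).pow_const 4).aestronglyMeasurable) ?_
  filter_upwards with h
  have hle := norm_affine_le hN hβ hβ1 hσ.le he h
  rw [Real.norm_of_nonneg (by positivity)]
  have h4 : max (Z β σ e h) 0 ≤ ‖1 + σ * ‖h‖‖ := by
    have h5 : (0 : ℝ) ≤ 1 + σ * ‖h‖ := by positivity
    rw [Real.norm_of_nonneg h5]
    apply max_le _ h5
    unfold Z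
    rcases eq_or_lt_of_le (norm_nonneg (β • e + σ • bar h)) with h6 | h6
    · rw [← h6, Real.log_zero]; exact h5
    · have := Real.log_le_sub_one_of_pos h6
      linarith
  exact pow_le_pow_left₀ (le_max_right _ _) h4 4

instance openPos_gaussian : Measure.IsOpenPosMeasure (gaussianReal 0 1) :=
  (gaussianReal_absolutelyContinuous' 0 one_ne_zero).isOpenPosMeasure

lemma Z_neg (hN : 0 < N) {β σ : ℝ} (hβ : 0 ≤ β) (hβ1 : β < 1) (hσ : 0 < σ) {e : E N}
    (he : ‖e‖ = 1) (hb : bar e = e) : 0 < stdGaussian (E N) {h | Z β σ e h < 0} := by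
  have h1 : 0 < stdGaussian (E N) {h | ‖β • e + σ • bar h‖ < 1} := by
    have mset : MeasurableSet {h : E N | ‖β • e + σ • bar h‖ < 1} := by
      have hc : Continuous (fun h : E N => ‖β • e + σ • bar h‖) :=
        (continuous_const.add (continuous_bar.const_smul σ)).norm
      exact measurableSet_lt hc.measurable measurable_const
    have mL : Measurable (toLp 2 : (Fin N → ℝ) → E N) := (PiLp.continuous_toLp 2 _).measurable
    rw [← map_pi_eq_stdGaussian, Measure.map_apply mL mset]
    have hopen : IsOpen ((toLp 2 : (Fin N → ℝ) → E N) ⁻¹' {h | ‖β • e + σ • bar h‖ < 1}) := by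
      have hc : Continuous (fun x : Fin N → ℝ => ‖β • e + σ • bar (toLp 2 x : E N)‖) := by
        have h2 : Continuous (fun x : Fin N → ℝ => bar (toLp 2 x : E N)) :=
          continuous_bar.comp (PiLp.continuous_toLp 2 _)
        exact (continuous_const.add (h2.const_smul σ)).norm
      exact isOpen_lt hc continuous_const
    refine hopen.measure_pos (Measure.pi fun _ : Fin N => gaussianReal 0 1) ⟨0, ?_⟩
    change ‖β • e + σ • bar (toLp 2 (0 : Fin N → ℝ) : E N)‖ < 1
    have h3 : bar (toLp 2 (0 : Fin N → ℝ) : E N) = 0 := by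
      have h4 : (toLp 2 (0 : Fin N → ℝ) : E N) = (0 : ℝ) • (0 : E N) := by simp
      rw [h4, bar_smul]; simp
    rw [h3, smul_zero, add_zero, norm_smul, he, Real.norm_of_nonneg hβ]
    linarith
  refine lt_of_lt_of_le h1 ?_
  have h2 : stdGaussian (E N) {h | ‖β • e + σ • bar h‖ < 1} ≤
      stdGaussian (E N) ({h | Z β σ e h < 0} ∪ {h | ¬ (‖β • e + σ • bar h‖ ≠ 0)}) := by
    apply measure_mono
    intro h hh
    have hh' : ‖β • e + σ • bar h‖ < 1 := hh
    by_cases h0 : ‖β • e + σ • bar h‖ = 0
    · right; simpa using h0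
    · left
      exact Real.log_neg (lt_of_le_of_ne (norm_nonneg _) (Ne.symm h0)) hh'
  refine h2.trans ((measure_union_le _ _).trans ?_)
  have h3 := norm_ne hN β hσ.ne' he hb
  rw [ae_iff] at h3
  rw [h3, add_zero]

end Pool.Agent.Q240.GC
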