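import Mathlib

/-!
Uniqueness of Laplace transforms, the expected logarithm of a Gamma variable, and the expected
logarithm of a Poisson mixture of Gamma variables.
-/

namespace Pool.Agent.Q240.GC

open MeasureTheory ProbabilityTheory Set Filter
open scoped ENNReal NNReal Topology

section Laplace

variable {μ ν : Measure ℝ}

lemma integrable_cexp_neg [IsFiniteMeasure μ] (hμ : ∀ᵐ x ∂μ, 0 ≤ x) {z : ℂ} (hz : z.re ≤ 0) :
    Integrable (fun x : ℝ => Complex.exp (z * x)) μ := by
  refine (integrable_const (1 : ℝ)).mono' (by fun_prop) ?_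
  filter_upwards [hμ] with x hx
  rw [Complex.norm_exp]
  simp only [Complex.mul_re, Complex.ofReal_re, Complex.ofReal_im, mul_zero, sub_zero]
  rw [Real.exp_le_one_iff]
  exact mul_nonpos_of_nonpos_of_nonneg hz hx

lemma tendsto_imag [IsFiniteMeasure μ] (hμ : ∀ᵐ x ∂μ, 0 ≤ x) (t : ℝ) :
    Tendsto (fun n : ℕ => complexMGF id μ (t * Complex.I - 1 / ((n : ℂ) + 1))) atTop
      (𝓝 (complexMGF id μ (t * Complex.I))) := by
  unfold complexMGF
  refine tendsto_integral_of_dominated_convergence (fun _ => 1) (fun n => by fun_prop)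
    (integrable_const _) (fun n => ?_) ?_
  · filter_upwards [hμ] with x hx
    rw [Complex.norm_exp]
    have h1 : ((t * Complex.I - 1 / ((n : ℂ) + 1)) * (id x : ℝ)).re = -(1 / ((n : ℝ) + 1)) * x := by
      have h2 : (1 / ((n : ℂ) + 1)) = ((1 / ((n : ℝ) + 1) : ℝ) : ℂ) := by push_cast; ring
      rw [h2]
      generalize 1 / ((n : ℝ) + 1) = r
      simp
    rw [h1, Real.exp_le_one_iff]
    have : 0 ≤ 1 / ((n : ℝ) + 1) := by positivity
    nlinarith
  · filter_upwards with x
    apply (Complex.continuous_exp.tendsto _).comp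
    apply Tendsto.mul_const
    have h3 : Tendsto (fun n : ℕ => 1 / ((n : ℂ) + 1)) atTop (𝓝 0) :=
      tendsto_one_div_add_atTop_nhds_zero_nat
    simpa using (tendsto_const_nhds (x := (t : ℂ) * Complex.I)).sub h3

/-- Laplace transforms determine probability measures on the half line. -/
lemma laplace_unique [IsProbabilityMeasure μ] [IsProbabilityMeasure ν] (hμ : ∀ᵐ x ∂μ, 0 ≤ x)
    (hν : ∀ᵐ x ∂ν, 0 ≤ x)
    (h : ∀ s : ℝ, 0 < s → ∫ x, Real.exp (-s * x) ∂μ = ∫ x, Real.exp (-s * x) ∂ν) : μ = ν := by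
  have hint : ∀ (κ : Measure ℝ) [IsProbabilityMeasure κ], (∀ᵐ x ∂κ, 0 ≤ x) →
      Iio (0 : ℝ) ⊆ interior (integrableExpSet id κ) := by
    intro κ _ hκ
    apply interior_maximal _ isOpen_Iio
    intro t ht
    change Integrable (fun x : ℝ => Real.exp (t * id x)) κ
    refine (integrable_const (1 : ℝ)).mono' (by fun_prop) ?_
    filter_upwards [hκ] with x hx
    rw [Real.norm_of_nonneg (Real.exp_pos _).le, Real.exp_le_one_iff]
    exact mul_nonpos_of_nonpos_of_nonneg (le_of_lt ht) hx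
  have hA : ∀ (κ : Measure ℝ) [IsProbabilityMeasure κ], (∀ᵐ x ∂κ, 0 ≤ x) →
      AnalyticOnNhd ℂ (complexMGF id κ) {z | z.re ∈ Iio (0 : ℝ)} := by
    intro κ _ hκ z hz
    exact analyticOnNhd_complexMGF z (hint κ hκ hz)
  have hpre : IsPreconnected {z : ℂ | z.re ∈ Iio (0 : ℝ)} :=
    ((convex_Iio (0 : ℝ)).linear_preimage Complex.reLm).isPreconnected
  have hfreq : ∃ᶠ z in 𝓝[≠] ((-1 : ℝ) : ℂ), complexMGF id μ z = complexMGF id ν z := by
    have h_real : ∃ᶠ (x : ℝ) in 𝓝[≠] (-1 : ℝ), complexMGF id μ x = complexMGF id ν x := by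
      apply Filter.Eventually.frequently
      have h1 : ∀ᶠ x : ℝ in 𝓝[≠] (-1 : ℝ), x < 0 :=
        mem_nhdsWithin_of_mem_nhds (isOpen_Iio.mem_nhds (by norm_num))
      filter_upwards [h1] with x hx
      rw [complexMGF_ofReal, complexMGF_ofReal]
      congr 1
      unfold mgf
      have := h (-x) (by linarith)
      simpa using this
    rw [frequently_iff_seq_forall] at h_real ⊢
    obtain ⟨xs, hx_tendsto, hx_eq⟩ := h_real
    refine ⟨fun n ↦ xs n, ?_, fun n ↦ ?_⟩
    · rw [tendsto_nhdsWithin_iff] at hx_tendsto ⊢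
      constructor
      · rw [tendsto_ofReal_iff]
        exact hx_tendsto.1
      · filter_upwards [hx_tendsto.2] with n hn h
        apply hn
        have h' : ((xs n : ℝ) : ℂ) = ((-1 : ℝ) : ℂ) := h
        exact Complex.ofReal_injective h'
    · simp [hx_eq]
  have hEq : EqOn (complexMGF id μ) (complexMGF id ν) {z | z.re ∈ Iio (0 : ℝ)} :=
    AnalyticOnNhd.eqOn_of_preconnected_of_frequently_eq (hA μ hμ) (hA ν hν) hpre
      (z₀ := ((-1 : ℝ) : ℂ)) (by simp) hfreq
  apply Measure.ext_of_charFun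
  funext t
  have e1 : ∀ (κ : Measure ℝ), charFun κ t = complexMGF id κ (t * Complex.I) := by
    intro κ
    rw [charFun_apply_real, complexMGF]
    congr with x
    congr 1
    simp only [id]
    ring
  rw [e1, e1]
  refine tendsto_nhds_unique (tendsto_imag hμ t) ?_
  refine (tendsto_imag hν t).congr fun n => ?_
  symm
  apply hEq
  change (t * Complex.I - 1 / ((n : ℂ) + 1)).re < 0
  have h2 : (1 / ((n : ℂ) + 1)) = ((1 / ((n : ℝ) + 1) : ℝ) : ℂ) := by push_cast; ring
  rw [h2]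
  have h3 : 0 < 1 / ((n : ℝ) + 1) := by positivity
  generalize 1 / ((n : ℝ) + 1) = r at h3
  simp
  exact h3

end Laplace

section Gamma

lemma hasDerivAt_Gamma_real {a : ℝ} (ha : 0 < a) :
    HasDerivAt Real.Gamma (∫ t in Ioi (0 : ℝ), t ^ (a - 1) * (Real.log t * Real.exp (-t))) a := by
  have h1 := Complex.hasDerivAt_GammaIntegral (s := (a : ℂ)) (by simpa using ha)
  have h2 : HasDerivAt Complex.Gamma
      (∫ t : ℝ in Ioi 0, (t : ℂ) ^ ((a : ℂ) - 1) * (Real.log t * Real.exp (-t))) (a : ℂ) := by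
    apply h1.congr_of_eventuallyEq
    have : IsOpen {s : ℂ | 0 < s.re} := Complex.continuous_re.isOpen_preimage _ isOpen_Ioi
    filter_upwards [this.mem_nhds (by simpa using ha)] with s hs using Complex.Gamma_eq_integral hs
  have h3 : (∫ t : ℝ in Ioi 0, (t : ℂ) ^ ((a : ℂ) - 1) * (Real.log t * Real.exp (-t))) =
      ((∫ t in Ioi (0 : ℝ), t ^ (a - 1) * (Real.log t * Real.exp (-t)) : ℝ) : ℂ) := by
    rw [← integral_complex_ofReal]
    apply setIntegral_congr_fun measurableSet_Ioi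
    intro t ht
    simp only
    rw [Complex.ofReal_mul, Complex.ofReal_mul, Complex.ofReal_cpow (le_of_lt ht)]
    push_cast
    rfl
  rw [h3] at h2
  have h4 := h2.real_of_complex
  simpa [Complex.Gamma_ofReal] using h4

lemma integrable_Gamma_log {a : ℝ} (ha : 0 < a) :
    IntegrableOn (fun t : ℝ => t ^ (a - 1) * (Real.log t * Real.exp (-t))) (Ioi 0) := by
  have hm := (mellin_hasDerivAt_of_isBigO_rpow (E := ℂ) (a := a + 1) (b := 0)
    (f := fun x => ((Real.exp (-x) : ℝ) : ℂ)) (s := (a : ℂ)) ?_ ?_ (by simp) ?_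
    (by simpa using ha)).1
  · have h1 : IntegrableOn (fun t : ℝ => (t : ℂ) ^ ((a : ℂ) - 1) •
        (Real.log t • ((Real.exp (-t) : ℝ) : ℂ))) (Ioi 0) := hm
    have h2 : IntegrableOn (fun t : ℝ => ((t : ℂ) ^ ((a : ℂ) - 1) •
        (Real.log t • ((Real.exp (-t) : ℝ) : ℂ))).re) (Ioi 0) := h1.re
    refine IntegrableOn.congr_fun h2 (fun t ht => ?_) measurableSet_Ioi
    have ht0 : (0 : ℝ) ≤ t := le_of_lt ht
    have h3 : (t : ℂ) ^ ((a : ℂ) - 1) • (Real.log t • ((Real.exp (-t) : ℝ) : ℂ)) =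
        ((t ^ (a - 1) * (Real.log t * Real.exp (-t)) : ℝ) : ℂ) := by
      rw [Complex.ofReal_mul, Complex.ofReal_mul, Complex.ofReal_cpow ht0]
      simp
    simp only [h3]
    exact Complex.ofReal_re _
  · refine (Continuous.continuousOn ?_).locallyIntegrableOn measurableSet_Ioi
    exact Complex.continuous_ofReal.comp (Real.continuous_exp.comp continuous_neg)
  · rw [← Asymptotics.isBigO_norm_left]
    simp_rw [Complex.norm_real, Asymptotics.isBigO_norm_left]
    simpa only [neg_one_mul] using (isLittleO_exp_neg_mul_rpow_atTop zero_lt_one _).isBigO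
  · simp_rw [neg_zero, Real.rpow_zero]
    refine Asymptotics.isBigO_const_of_tendsto (?_ : Tendsto _ _ (𝓝 (1 : ℂ))) one_ne_zero
    rw [(by simp : (1 : ℂ) = Real.exp (-0))]
    exact (Complex.continuous_ofReal.comp
      (Real.continuous_exp.comp continuous_neg)).continuousWithinAt

/-- The digamma function at positive reals. -/
noncomputable def psi (a : ℝ) : ℝ := logDeriv Real.Gamma a

lemma integral_gammaMeasure {a r : ℝ} (ha : 0 < a) (hr : 0 < r) (f : ℝ → ℝ) :
    ∫ x, f x ∂(gammaMeasure a r) =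
      ∫ x in Ioi (0 : ℝ), (r ^ a / Real.Gamma a * x ^ (a - 1) * Real.exp (-(r * x))) * f x := by
  unfold gammaMeasure
  rw [integral_withDensity_eq_integral_toReal_smul]
  · rw [← integral_indicator measurableSet_Ioi]
    apply integral_congr_ae
    have h0 : ∀ᵐ x : ℝ ∂volume, x ≠ 0 := Measure.ae_ne volume 0
    filter_upwards [h0] with x hx
    unfold gammaPDF
    rw [ENNReal.toReal_ofReal (gammaPDFReal_nonneg ha hr x)]
    by_cases h : x ∈ Ioi (0 : ℝ)
    · rw [indicator_of_mem h]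
      unfold gammaPDFReal
      rw [if_pos (le_of_lt h)]
      rfl
    · rw [indicator_of_notMem h]
      unfold gammaPDFReal
      have : ¬ (0 ≤ x) := by
        intro h1
        exact h (lt_of_le_of_ne h1 (Ne.symm hx))
      rw [if_neg this]
      simp
  · exact (measurable_gammaPDFReal a r).ennreal_ofReal
  · exact Eventually.of_forall fun x => ENNReal.ofReal_lt_top

lemma gamma_laplace {a s : ℝ} (ha : 0 < a) (hs : 0 < s) :
    ∫ x, Real.exp (-s * x) ∂(gammaMeasure a (1 / 2)) = (1 / (1 + 2 * s)) ^ a := by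
  rw [integral_gammaMeasure ha (by norm_num)]
  have h1 : ∀ x : ℝ, ((1 / 2 : ℝ) ^ a / Real.Gamma a * x ^ (a - 1) * Real.exp (-(1 / 2 * x))) *
      Real.exp (-s * x) = (1 / 2 : ℝ) ^ a / Real.Gamma a *
        (x ^ (a - 1) * Real.exp (-((1 / 2 + s) * x))) := by
    intro x
    have : Real.exp (-((1 / 2 + s) * x)) = Real.exp (-(1 / 2 * x)) * Real.exp (-s * x) := by
      rw [← Real.exp_add]; congr 1; ring
    rw [this]; ring
  simp_rw [h1]
  rw [integral_const_mul, Real.integral_rpow_mul_exp_neg_mul_Ioi ha (by positivity)]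
  have hG : Real.Gamma a ≠ 0 := (Real.Gamma_pos_of_pos ha).ne'
  have h2 : (1 / 2 : ℝ) ^ a * (1 / (1 / 2 + s)) ^ a = (1 / (1 + 2 * s)) ^ a := by
    rw [← Real.mul_rpow (by norm_num) (by positivity)]
    congr 1
    field_simp
  rw [← h2]
  field_simp

lemma gamma_log {a : ℝ} (ha : 0 < a) :
    ∫ x, Real.log x ∂(gammaMeasure a (1 / 2)) = psi a + Real.log 2 := by
  rw [integral_gammaMeasure ha (by norm_num)]
  have hG : Real.Gamma a ≠ 0 := (Real.Gamma_pos_of_pos ha).ne'
  have h1 : ∀ x : ℝ, ((1 / 2 : ℝ) ^ a / Real.Gamma a * x ^ (a - 1) * Real.exp (-(1 / 2 * x))) *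
      Real.log x = (1 / 2 : ℝ) ^ a / Real.Gamma a *
        (x ^ (a - 1) * Real.exp (-(1 / 2 * x)) * Real.log x) := fun x => by ring
  simp_rw [h1]
  rw [integral_const_mul]
  have h2 := integral_comp_mul_left_Ioi
    (fun x : ℝ => x ^ (a - 1) * Real.exp (-(1 / 2 * x)) * Real.log x) 0 (b := 2) (by norm_num)
  rw [mul_zero] at h2
  have i1 := integrable_Gamma_log ha
  have i2 : IntegrableOn (fun x : ℝ => Real.exp (-x) * x ^ (a - 1)) (Ioi 0) :=
    Real.GammaIntegral_convergent ha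
  have h3 : ∫ x in Ioi (0 : ℝ), (2 * x) ^ (a - 1) * Real.exp (-(1 / 2 * (2 * x))) *
      Real.log (2 * x) = 2 ^ (a - 1) * (Real.log 2 * Real.Gamma a +
        ∫ t in Ioi (0 : ℝ), t ^ (a - 1) * (Real.log t * Real.exp (-t))) := by
    have h4 : ∫ x in Ioi (0 : ℝ), (2 * x) ^ (a - 1) * Real.exp (-(1 / 2 * (2 * x))) *
        Real.log (2 * x) = ∫ x in Ioi (0 : ℝ), 2 ^ (a - 1) *
          (Real.log 2 * (Real.exp (-x) * x ^ (a - 1)) +
            x ^ (a - 1) * (Real.log x * Real.exp (-x))) := by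
      apply setIntegral_congr_fun measurableSet_Ioi
      intro x hx
      have hx0 : (0 : ℝ) < x := hx
      simp only
      rw [Real.mul_rpow (by norm_num) hx0.le, Real.log_mul (by norm_num) hx0.ne']
      have : -(1 / 2 * (2 * x)) = -x := by ring
      rw [this]; ring
    rw [h4, integral_const_mul, integral_add (i2.const_mul _) i1, integral_const_mul,
      Real.Gamma_eq_integral ha]
  rw [h3, smul_eq_mul] at h2
  have h5 : ∫ x in Ioi (0 : ℝ), x ^ (a - 1) * Real.exp (-(1 / 2 * x)) * Real.log x =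
      2 * (2 ^ (a - 1) * (Real.log 2 * Real.Gamma a +
        ∫ t in Ioi (0 : ℝ), t ^ (a - 1) * (Real.log t * Real.exp (-t)))) := by
    rw [h2]; ring
  rw [h5]
  have h6 : (1 / 2 : ℝ) ^ a * (2 * 2 ^ (a - 1)) = 1 := by
    have : (2 : ℝ) * 2 ^ (a - 1) = 2 ^ a := by
      rw [Real.rpow_sub (by norm_num), Real.rpow_one]; field_simp
    rw [this, ← Real.mul_rpow (by norm_num) (by norm_num)]
    norm_num
  unfold psi
  rw [logDeriv_apply, (hasDerivAt_Gamma_real ha).deriv]
  calc (1 / 2 : ℝ) ^ a / Real.Gamma a * (2 * (2 ^ (a - 1) * (Real.log 2 * Real.Gamma a +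
        ∫ t in Ioi (0 : ℝ), t ^ (a - 1) * (Real.log t * Real.exp (-t)))))
      = ((1 / 2 : ℝ) ^ a * (2 * 2 ^ (a - 1))) * ((Real.log 2 * Real.Gamma a +
        ∫ t in Ioi (0 : ℝ), t ^ (a - 1) * (Real.log t * Real.exp (-t))) / Real.Gamma a) := by ring
    _ = _ := by rw [h6]; field_simp; ring

end Gamma

section Mixture

/-- Poisson weights. -/
noncomputable def pw (l : ℝ) (j : ℕ) : ℝ := Real.exp (-l) * (l ^ j / (j.factorial : ℝ))

lemma pw_nonneg {l : ℝ} (hl : 0 ≤ l) (j : ℕ) : 0 ≤ pw l j := by unfold pw; positivity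

lemma hasSum_pw (l : ℝ) : HasSum (pw l) 1 := by
  have h := (NormedSpace.expSeries_div_hasSum_exp (𝔸 := ℝ) l).mul_left (Real.exp (-l))
  rw [← Real.exp_eq_exp_ℝ, ← Real.exp_add] at h
  have h' : HasSum (fun i : ℕ => Real.exp (-l) * (l ^ i / (i.factorial : ℝ))) 1 := by
    simpa using h
  exact h'

lemma hasSum_pw_pow (l q : ℝ) :
    HasSum (fun j => pw l j * q ^ j) (Real.exp (-l + l * q)) := by
  have h := (NormedSpace.expSeries_div_hasSum_exp (𝔸 := ℝ) (l * q)).mul_left (Real.exp (-l))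
  rw [← Real.exp_eq_exp_ℝ, ← Real.exp_add] at h
  refine h.congr_fun fun j => ?_
  unfold pw
  rw [mul_pow]; ring

/-- Poisson mixture of Gamma distributions. -/
noncomputable def mix (m l : ℝ) : Measure ℝ :=
  Measure.sum fun j : ℕ => ENNReal.ofReal (pw l j) • gammaMeasure (m + j) (1 / 2)

lemma isProb_mix {m l : ℝ} (hm : 0 < m) (hl : 0 ≤ l) : IsProbabilityMeasure (mix m l) := by
  constructor
  unfold mix
  rw [Measure.sum_apply _ MeasurableSet.univ]
  have h1 : ∀ j : ℕ, (ENNReal.ofReal (pw l j) • gammaMeasure (m + j) (1 / 2)) univ =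
      ENNReal.ofReal (pw l j) := by
    intro j
    have := isProbabilityMeasure_gammaMeasure (a := m + j) (r := 1 / 2) (by positivity)
      (by norm_num)
    rw [Measure.smul_apply, measure_univ, smul_eq_mul, mul_one]
  simp_rw [h1]
  rw [← ENNReal.ofReal_tsum_of_nonneg (pw_nonneg hl) (hasSum_pw l).summable, (hasSum_pw l).tsum_eq,
    ENNReal.ofReal_one]

lemma gamma_nonneg (a r : ℝ) : ∀ᵐ x ∂(gammaMeasure a r), 0 ≤ x := by
  unfold gammaMeasure
  rw [ae_withDensity_iff (f := gammaPDF a r) (measurable_gammaPDFReal a r).ennreal_ofReal]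
  filter_upwards with x hx
  by_contra h
  exact hx (gammaPDF_of_neg (not_le.1 h))

lemma mix_nonneg (m l : ℝ) : ∀ᵐ x ∂(mix m l), 0 ≤ x := by
  unfold mix
  rw [Measure.ae_sum_iff' measurableSet_Ici]
  intro j
  exact Measure.ae_smul_measure (gamma_nonneg _ _) _

lemma mix_laplace {m l s : ℝ} (hm : 0 < m) (hl : 0 ≤ l) (hs : 0 < s) :
    ∫ x, Real.exp (-s * x) ∂(mix m l) =
      (1 / (1 + 2 * s)) ^ m * Real.exp (-l + l * (1 / (1 + 2 * s))) := by
  have := isProb_mix hm hl
  have hint : Integrable (fun x => Real.exp (-s * x)) (mix m l) := by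
    refine (integrable_const (1 : ℝ)).mono' (by fun_prop) ?_
    filter_upwards [mix_nonneg m l] with x hx
    rw [Real.norm_of_nonneg (Real.exp_pos _).le, Real.exp_le_one_iff]
    nlinarith
  have h1 := hasSum_integral_measure (μ := fun j : ℕ =>
    ENNReal.ofReal (pw l j) • gammaMeasure (m + j) (1 / 2)) hint
  set q : ℝ := 1 / (1 + 2 * s) with hq
  have hq0 : 0 < q := by rw [hq]; positivity
  have h2 : HasSum (fun j : ℕ => q ^ m * (pw l j * q ^ j)) (q ^ m * Real.exp (-l + l * q)) :=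
    (hasSum_pw_pow l q).mul_left _
  refine h1.unique (h2.congr_fun fun j => ?_)
  rw [integral_smul_measure, gamma_laplace (by positivity) hs, ENNReal.toReal_ofReal
    (pw_nonneg hl j), ← hq, Real.rpow_add hq0, Real.rpow_natCast, smul_eq_mul]
  ring

/-- The function `φ_m(x) = e^{-x} ∑_j x^j / j! ψ(j + m)`. -/
noncomputable def phi (m x : ℝ) : ℝ :=
  Real.exp (-x) * ∑' j : ℕ, x ^ j / (j.factorial : ℝ) * psi (j + m)

lemma mix_log {m l : ℝ} (hm : 0 < m) (hl : 0 ≤ l) (hint : Integrable Real.log (mix m l)) :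
    ∫ x, Real.log x ∂(mix m l) = phi m l + Real.log 2 := by
  have h1 := hasSum_integral_measure (μ := fun j : ℕ =>
    ENNReal.ofReal (pw l j) • gammaMeasure (m + j) (1 / 2)) hint
  have h2 : HasSum (fun j : ℕ => pw l j * (psi (j + m) + Real.log 2))
      (∫ x, Real.log x ∂(mix m l)) := by
    refine h1.congr_fun fun j => ?_
    rw [integral_smul_measure, gamma_log (by positivity), ENNReal.toReal_ofReal
      (pw_nonneg hl j), smul_eq_mul, add_comm (j : ℝ) m]
  have h3 : HasSum (fun j : ℕ => pw l j * Real.log 2) (1 * Real.log 2) :=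
    (hasSum_pw l).mul_right _
  have h4 := h2.sub h3
  have h5 : HasSum (fun j : ℕ => Real.exp (-l) * (l ^ j / (j.factorial : ℝ) * psi (j + m)))
      (∫ x, Real.log x ∂(mix m l) - 1 * Real.log 2) := by
    refine h4.congr_fun fun j => ?_
    unfold pw; ring
  have h6 := h5.tsum_eq
  rw [tsum_mul_left] at h6
  unfold phi
  rw [h6]; ring

end Mixture

end Pool.Agent.Q240.GC
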