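import Pool.Agent.Q240.GC.Gauss
import Pool.Agent.Q240.GC.Laplace

/-!
The expected logarithmic increment of the Gaussian consensus chain, in terms of the digamma
function.
-/

namespace Pool.Agent.Q240.GC

open MeasureTheory ProbabilityTheory Set Filter WithLp
open scoped ENNReal NNReal Topology RealInnerProductSpace

variable {N : ℕ}

lemma one_dim_laplace {s : ℝ} (hs : 0 < s) (b : ℝ) :
    ∫ x, Real.exp (-s * (b + x) ^ 2) ∂(gaussianReal 0 1) =
      √(1 / (1 + 2 * s)) * Real.exp (-s * b ^ 2 / (1 + 2 * s)) := by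
  rw [integral_gaussianReal_eq_integral_smul one_ne_zero]
  set c : ℝ := s * b / (s + 1 / 2) with hc
  have h1 : ∀ x : ℝ, gaussianPDFReal 0 1 x • Real.exp (-s * (b + x) ^ 2) =
      ((√(2 * Real.pi))⁻¹ * Real.exp (-s * b ^ 2 / (1 + 2 * s))) *
        Real.exp (-(s + 1 / 2) * (x + c) ^ 2) := by
    intro x
    unfold gaussianPDFReal
    rw [smul_eq_mul]
    simp only [NNReal.coe_one, mul_one]
    rw [mul_assoc, ← Real.exp_add, mul_assoc, ← Real.exp_add]
    congr 2
    rw [hc]
    field_simp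
    ring
  simp_rw [h1]
  rw [integral_const_mul]
  have h2 : ∫ x : ℝ, Real.exp (-(s + 1 / 2) * (x + c) ^ 2) = √(Real.pi / (s + 1 / 2)) := by
    rw [integral_add_right_eq_self (fun x : ℝ => Real.exp (-(s + 1 / 2) * x ^ 2)) c]
    exact integral_gaussian _
  rw [h2]
  have h3 : √(Real.pi / (s + 1 / 2)) = √(2 * Real.pi) * √(1 / (1 + 2 * s)) := by
    rw [← Real.sqrt_mul (by positivity)]
    congr 1
    field_simp
    ring
  rw [h3]
  have h4 : √(2 * Real.pi) ≠ 0 := by positivity
  field_simp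

lemma full_laplace {s : ℝ} (hs : 0 < s) (a : ℝ) {e : E N} (he : ‖e‖ = 1) :
    ∫ h, Real.exp (-s * ‖a • e + h‖ ^ 2) ∂(stdGaussian (E N)) =
      √(1 / (1 + 2 * s)) ^ N * Real.exp (-s * a ^ 2 / (1 + 2 * s)) := by
  have hN : 0 < N := by
    rcases Nat.eq_zero_or_pos N with h | h
    · subst h
      have : e = 0 := Subsingleton.elim _ _
      rw [this] at he; simp at he
    · exact h
  set i0 : Fin N := ⟨0, hN⟩
  set ε : E N := EuclideanSpace.single i0 1 with hε
  have hεn : ‖ε‖ = 1 := by simp [hε]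
  set U : E N ≃ₗᵢ[ℝ] E N := ((ℝ ∙ (e - ε))ᗮ).reflection with hU
  have hUe : U e = ε := Submodule.reflection_sub (by rw [he, hεn])
  have h1 : ∫ h, Real.exp (-s * ‖a • e + h‖ ^ 2) ∂(stdGaussian (E N)) =
      ∫ h, Real.exp (-s * ‖a • ε + h‖ ^ 2) ∂(stdGaussian (E N)) := by
    conv_rhs => rw [← stdGaussian_map (E := E N) U]
    rw [integral_map U.continuous.measurable.aemeasurable (by fun_prop)]
    congr with h
    rw [← hUe, ← map_smul, ← map_add, U.norm_map]
  have mL : Measurable (toLp 2 : (Fin N → ℝ) → E N) := (PiLp.continuous_toLp 2 _).measurable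
  rw [h1, ← map_pi_eq_stdGaussian, integral_map mL.aemeasurable (by fun_prop)]
  have h2 : ∀ g : Fin N → ℝ, Real.exp (-s * ‖a • ε + (toLp 2 g : E N)‖ ^ 2) =
      ∏ i, Real.exp (-s * ((if i = i0 then a else 0) + g i) ^ 2) := by
    intro g
    rw [← Real.exp_sum, EuclideanSpace.real_norm_sq_eq, Finset.mul_sum]
    congr 1
    apply Finset.sum_congr rfl
    intro i _
    congr 2
    by_cases h : i = i0
    · simp [hε, h]
    · simp [hε, h]
  simp_rw [h2]
  rw [integral_fintype_prod_eq_prod (f := fun (i : Fin N) (x : ℝ) =>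
    Real.exp (-s * ((if i = i0 then a else 0) + x) ^ 2))]
  simp_rw [one_dim_laplace hs]
  rw [Finset.prod_mul_distrib, ← Real.exp_sum]
  simp only [Finset.prod_const, Finset.card_univ, Fintype.card_fin]
  congr 2
  have h3 : ∀ i : Fin N, -s * (if i = i0 then a else 0) ^ 2 / (1 + 2 * s) =
      if i = i0 then -s * a ^ 2 / (1 + 2 * s) else 0 := by
    intro i; split_ifs <;> simp
  simp_rw [h3]
  simp

lemma norm_sq_add_one (hN : 0 < N) {e : E N} (hb : bar e = e) (a z : ℝ) (h : E N) :
    ‖a • e + (bar h + (z / √N) • one N)‖ ^ 2 = ‖a • e + bar h‖ ^ 2 + z ^ 2 := by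
  have hN' : (0 : ℝ) < N := by exact_mod_cast hN
  rw [← add_assoc, norm_add_sq_real]
  have h1 : ⟪a • e + bar h, (z / √N) • one N⟫ = 0 := by
    rw [inner_smul_right, inner_add_left, inner_smul_left, real_inner_comm (one N) e,
      real_inner_comm (one N) (bar h), inner_one_bar hN]
    conv_lhs => rw [← hb]
    rw [inner_one_bar hN]
    simp
  rw [h1, norm_smul, mul_pow, norm_one_sq, Real.norm_eq_abs, sq_abs, div_pow,
    Real.sq_sqrt hN'.le]
  field_simp
  ring

lemma bar_laplace (hN : 0 < N) {s : ℝ} (hs : 0 < s) (a : ℝ) {e : E N} (he : ‖e‖ = 1)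
    (hb : bar e = e) :
    ∫ h, Real.exp (-s * ‖a • e + bar h‖ ^ 2) ∂(stdGaussian (E N)) =
      √(1 / (1 + 2 * s)) ^ (N - 1) * Real.exp (-s * a ^ 2 / (1 + 2 * s)) := by
  have h1 := full_laplace hs a he
  have mS : Measurable (fun p : E N × ℝ => bar p.1 + (p.2 / √N) • one N) :=
    (measurable_bar.comp measurable_fst).add ((measurable_snd.div_const _).smul_const _)
  have h2 : ∫ h, Real.exp (-s * ‖a • e + h‖ ^ 2) ∂(stdGaussian (E N)) =
      (∫ h, Real.exp (-s * ‖a • e + bar h‖ ^ 2) ∂(stdGaussian (E N))) *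
        ∫ z, Real.exp (-s * z ^ 2) ∂(gaussianReal 0 1) := by
    conv_lhs => rw [← gauss_split hN]
    rw [integral_map mS.aemeasurable (by fun_prop), ← integral_prod_mul]
    congr with p
    rw [norm_sq_add_one hN hb, ← Real.exp_add]
    congr 1; ring
  have h3 : ∫ z, Real.exp (-s * z ^ 2) ∂(gaussianReal 0 1) = √(1 / (1 + 2 * s)) := by
    have := one_dim_laplace hs 0
    simpa using this
  rw [h2, h3] at h1
  have h4 : 0 < √(1 / (1 + 2 * s)) := by positivity
  have h5 : √(1 / (1 + 2 * s)) ^ N = √(1 / (1 + 2 * s)) ^ (N - 1) * √(1 / (1 + 2 * s)) := by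
    rw [← pow_succ]; congr 1; omega
  rw [h5] at h1
  apply mul_right_cancel₀ h4.ne'
  rw [h1]; ring

/-- The squared length of the increment is a Poisson mixture of Gamma variables. -/
lemma bar_law (hN : 2 ≤ N) (a : ℝ) {e : E N} (he : ‖e‖ = 1) (hb : bar e = e) :
    (stdGaussian (E N)).map (fun h => ‖a • e + bar h‖ ^ 2) =
      mix (((N : ℝ) - 1) / 2) (a ^ 2 / 2) := by
  have hN0 : 0 < N := by omega
  have hNr : (2 : ℝ) ≤ N := by exact_mod_cast hN
  have hm : 0 < ((N : ℝ) - 1) / 2 := by linarith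
  have hl : 0 ≤ a ^ 2 / 2 := by positivity
  have mR : Measurable (fun h : E N => ‖a • e + bar h‖ ^ 2) :=
    ((measurable_bar.const_add _).norm).pow_const 2
  have := isProb_mix hm hl
  have : IsProbabilityMeasure ((stdGaussian (E N)).map (fun h => ‖a • e + bar h‖ ^ 2)) :=
    Measure.isProbabilityMeasure_map mR.aemeasurable
  apply laplace_unique
  · rw [ae_map_iff mR.aemeasurable measurableSet_Ici]
    exact Eventually.of_forall fun h => by positivity
  · exact mix_nonneg _ _
  · intro s hs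
    rw [integral_map mR.aemeasurable (by fun_prop), bar_laplace hN0 hs a he hb,
      mix_laplace hm hl hs]
    set q := 1 / (1 + 2 * s) with hq
    have hq0 : 0 < q := by rw [hq]; positivity
    congr 1
    · rw [Real.sqrt_eq_rpow, ← Real.rpow_natCast, ← Real.rpow_mul hq0.le]
      congr 1
      rw [Nat.cast_sub (by omega)]
      push_cast; ring
    · congr 1
      rw [hq]
      field_simp
      ring

/-- The expected logarithmic increment. -/
lemma lyap_eq (hN : 2 ≤ N) {β ρ : ℝ} (hβ : 0 ≤ β) (hβ1 : β ≤ 1) (hρ : 0 < ρ) {e : E N}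
    (he : ‖e‖ = 1) (hb : bar e = e) :
    ∫ h, Z β (√(ρ / N)) e h ∂(stdGaussian (E N)) =
      1 / 2 * (phi (((N : ℝ) - 1) / 2) (N * β ^ 2 / (2 * ρ)) + Real.log (2 * ρ / N)) := by
  have hN0 : 0 < N := by omega
  have hNr : (2 : ℝ) ≤ N := by exact_mod_cast hN
  have hm : 0 < ((N : ℝ) - 1) / 2 := by linarith
  set σ := √(ρ / N) with hσd
  have hσ : 0 < σ := by rw [hσd]; positivity
  have hσ2 : σ ^ 2 = ρ / N := Real.sq_sqrt (by positivity)
  set a := β / σ with ha
  have hl : 0 ≤ a ^ 2 / 2 := by positivity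
  have mR : Measurable (fun h : E N => ‖a • e + bar h‖ ^ 2) :=
    ((measurable_bar.const_add _).norm).pow_const 2
  have hZ : ∀ᵐ h ∂(stdGaussian (E N)), Real.log (‖a • e + bar h‖ ^ 2) =
      2 * (Z β σ e h - Real.log σ) := by
    filter_upwards [norm_ne hN0 β hσ.ne' he hb] with h hh
    have h1 : β • e + σ • bar h = σ • (a • e + bar h) := by
      rw [smul_add, smul_smul, ha]
      congr 2
      field_simp
    have h2 : ‖β • e + σ • bar h‖ = σ * ‖a • e + bar h‖ := by
      rw [h1, norm_smul, Real.norm_of_nonneg hσ.le]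
    unfold Z
    rw [h2] at hh ⊢
    have h3 : ‖a • e + bar h‖ ≠ 0 := right_ne_zero_of_mul hh
    rw [Real.log_mul hσ.ne' h3, Real.log_pow]
    push_cast; ring
  have iZ := integrable_Z hN0 hβ hβ1 hσ he hb
  have iR : Integrable (fun h : E N => Real.log (‖a • e + bar h‖ ^ 2)) (stdGaussian (E N)) := by
    have : Integrable (fun h => 2 * (Z β σ e h - Real.log σ)) (stdGaussian (E N)) :=
      (iZ.sub (integrable_const _)).const_mul 2
    exact this.congr (hZ.mono fun h hh => hh.symm)
  have ilog : Integrable Real.log (mix (((N : ℝ) - 1) / 2) (a ^ 2 / 2)) := by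
    rw [← bar_law hN a he hb]
    exact (integrable_map_measure Real.measurable_log.aestronglyMeasurable
      mR.aemeasurable).2 iR
  have h1 := mix_log hm hl ilog
  rw [← bar_law hN a he hb, integral_map mR.aemeasurable
    Real.measurable_log.aestronglyMeasurable, integral_congr_ae hZ, integral_const_mul,
    integral_sub iZ (integrable_const _)] at h1
  simp only [integral_const, probReal_univ, smul_eq_mul, one_mul] at h1
  have h2 : Real.log σ = 1 / 2 * Real.log (ρ / N) := by
    rw [hσd, Real.log_sqrt (by positivity)]; ring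
  have h3 : Real.log (2 * ρ / N) = Real.log 2 + Real.log (ρ / N) := by
    rw [mul_div_assoc, Real.log_mul (by norm_num) (by positivity)]
  have h4 : a ^ 2 / 2 = N * β ^ 2 / (2 * ρ) := by
    rw [ha, div_pow, hσ2]; field_simp
  rw [h2, h4] at h1
  rw [h3]
  linarith

end Pool.Agent.Q240.GC
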