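import Pool.Agent.Q240.GC.Gauss
import Pool.Agent.Q240.GC.Drift

/-!
The one-dimensional Gaussian consensus chain: survival below a level, anticoncentration, and
divergence at criticality.
-/

namespace Pool.Agent.Q240.GC

open MeasureTheory ProbabilityTheory Set Filter WithLp
open scoped ENNReal NNReal Topology RealInnerProductSpace

variable {N : ℕ}

/-- One step of the one-dimensional chain with noise `h`. -/
noncomputable def T (β σ : ℝ) (y h : E N) : E N :=
  β • y + ((1 - β) * mean y) • one N + (σ * ‖bar y‖) • h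

lemma continuous_T (β σ : ℝ) : Continuous (fun p : E N × E N => T β σ p.1 p.2) := by
  unfold T
  have h1 : Continuous (fun p : E N × E N => mean p.1) := continuous_mean.comp continuous_fst
  have h2 : Continuous (fun p : E N × E N => ‖bar p.1‖) :=
    (continuous_bar.comp continuous_fst).norm
  fun_prop

lemma measurable_T (β σ : ℝ) : Measurable (fun p : E N × E N => T β σ p.1 p.2) :=
  (continuous_T β σ).measurable

lemma measurable_T_right (β σ : ℝ) (y : E N) : Measurable (fun h : E N => T β σ y h) :=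
  (measurable_T β σ).comp (measurable_const.prodMk measurable_id)

lemma bar_T (hN : 0 < N) (β σ : ℝ) (y h : E N) :
    bar (T β σ y h) = β • bar y + (σ * ‖bar y‖) • bar h := by
  unfold T
  rw [bar_add, bar_add, bar_smul, bar_smul, bar_smul, bar_one hN, smul_zero, add_zero]

lemma T_shift (hN : 0 < N) (β σ : ℝ) (y h : E N) (b : ℝ) :
    T β σ (y + b • one N) h = T β σ y h + b • one N := by
  unfold T
  have h1 : bar (y + b • one N) = bar y := by
    rw [bar_add, bar_smul, bar_one hN, smul_zero, add_zero]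
  have h2 : mean (y + b • one N) = mean y + b := by
    rw [mean_add, mean_smul, mean_one hN, mul_one]
  rw [h1, h2]
  module

/-- Direction of the centred state. -/
noncomputable def dir (y : E N) : E N := ‖bar y‖⁻¹ • bar y

lemma norm_dir {y : E N} (hy : bar y ≠ 0) : ‖dir y‖ = 1 := by
  unfold dir
  rw [norm_smul, norm_inv, norm_norm, inv_mul_cancel₀ (norm_ne_zero_iff.2 hy)]

lemma bar_dir (hN : 0 < N) (y : E N) : bar (dir y) = dir y := by
  unfold dir
  rw [bar_smul, bar_bar hN]

lemma norm_bar_T (hN : 0 < N) (β σ : ℝ) {y : E N} (hy : bar y ≠ 0) (h : E N) :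
    ‖bar (T β σ y h)‖ = ‖bar y‖ * ‖β • dir y + σ • bar h‖ := by
  rw [bar_T hN]
  have h1 : ‖bar y‖ ≠ 0 := norm_ne_zero_iff.2 hy
  have h2 : β • bar y + (σ * ‖bar y‖) • bar h = ‖bar y‖ • (β • dir y + σ • bar h) := by
    unfold dir
    rw [smul_add, smul_smul, smul_smul, smul_smul]
    congr 2
    · field_simp
    · ring
  rw [h2, norm_smul, norm_norm]

/-- Logarithm of the norm of the centred state. -/
noncomputable def L (y : E N) : ℝ := Real.log ‖bar y‖

lemma measurable_L : Measurable (L : E N → ℝ) :=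
  Real.measurable_log.comp measurable_bar.norm

lemma L_T (hN : 0 < N) (β : ℝ) {σ : ℝ} (hσ : σ ≠ 0) {y : E N} (hy : bar y ≠ 0) :
    ∀ᵐ h ∂(stdGaussian (E N)), L (T β σ y h) = L y + Z β σ (dir y) h := by
  filter_upwards [norm_ne hN β hσ (norm_dir hy) (bar_dir hN y)] with h hh
  unfold L Z
  rw [norm_bar_T hN β σ hy, Real.log_mul (norm_ne_zero_iff.2 hy) hh]

/-- The one-dimensional Gaussian consensus chain with respect to a filtration. -/
structure Chain {Ω : Type*} {mΩ : MeasurableSpace Ω} (P : Measure Ω) (ℱ : Filtration ℕ mΩ)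
    (β σ : ℝ) (y : ℕ → Ω → E N) : Prop where
  meas : ∀ t, Measurable[ℱ t] (y t)
  init : ∀ᵐ ω ∂P, bar (y 0 ω) ≠ 0
  step : ∀ t, ∀ H : Set Ω, MeasurableSet[ℱ t] H → ∀ f : E N → ℝ≥0∞, Measurable f →
    ∫⁻ ω in H, f (y (t + 1) ω) ∂P =
      ∫⁻ ω in H, ∫⁻ h, f (T β σ (y t ω) h) ∂(stdGaussian (E N)) ∂P

variable {Ω : Type*} {mΩ : MeasurableSpace Ω} {P : Measure Ω} {ℱ : Filtration ℕ mΩ}
  {β σ : ℝ} {y : ℕ → Ω → E N}

lemma Chain.meas' (hy : Chain P ℱ β σ y) (t : ℕ) : Measurable (y t) :=
  (hy.meas t).mono (ℱ.le t) le_rfl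

lemma Chain.ne_zero (hN : 0 < N) (hσ : σ ≠ 0) (hy : Chain P ℱ β σ y) :
    ∀ t, ∀ᵐ ω ∂P, bar (y t ω) ≠ 0
  | 0 => hy.init
  | t + 1 => by
    have ih := Chain.ne_zero hN hσ hy t
    have mset : MeasurableSet {x : E N | bar x = 0} := measurable_bar (measurableSet_singleton 0)
    have h := hy.step t univ MeasurableSet.univ ({x : E N | bar x = 0}.indicator 1)
      (measurable_one.indicator mset)
    rw [Measure.restrict_univ] at h
    have h1 : ∫⁻ ω, ({x : E N | bar x = 0}.indicator 1) (y (t + 1) ω) ∂P =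
        P {ω | bar (y (t + 1) ω) = 0} := by
      have m2 : MeasurableSet {ω | bar (y (t + 1) ω) = 0} := (hy.meas' (t + 1)) mset
      rw [← lintegral_indicator_one m2]
      rfl
    have h2 : ∫⁻ ω, ∫⁻ h, ({x : E N | bar x = 0}.indicator 1) (T β σ (y t ω) h)
        ∂(stdGaussian (E N)) ∂P = 0 := by
      rw [lintegral_congr_ae (g := fun _ => 0), lintegral_zero]
      filter_upwards [ih] with ω hω
      rw [lintegral_congr_ae (g := fun _ => 0), lintegral_zero]
      filter_upwards [norm_ne hN β hσ (norm_dir hω) (bar_dir hN _)] with h hh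
      apply indicator_of_notMem
      intro hmem
      have h3 : ‖bar (T β σ (y t ω) h)‖ = 0 := by
        rw [norm_eq_zero]; exact hmem
      rw [norm_bar_T hN β σ hω] at h3
      rcases mul_eq_zero.1 h3 with h4 | h4
      · exact hω (norm_eq_zero.1 h4)
      · exact hh h4
    rw [h1, h2] at h
    rw [ae_iff]
    simpa using h

/-- Probability of staying below a level. -/
lemma Chain.alive [IsProbabilityMeasure P] (hN : 0 < N) (hσ : σ ≠ 0) (hy : Chain P ℱ β σ y)
    {e0 : E N} (he0 : ‖e0‖ = 1) (hb0 : bar e0 = e0) {a κ C : ℝ} (ha : 1 ≤ a) (hC : 1 ≤ C)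
    (hκ : 1 ≤ C ^ 4 * κ)
    (hd : ∀ y, a ≤ y → IntegrableOn (fun x => √(y - x)) (Iic (y - a))
        ((stdGaussian (E N)).map (Z β σ e0)) ∧
      ∫ x in Iic (y - a), √(y - x) ∂((stdGaussian (E N)).map (Z β σ e0)) ≤
        √y * (1 - κ / y ^ 2)) (g : ℝ) :
    ∀ n t, ∀ H : Set Ω, MeasurableSet[ℱ t] H →
      P (H ∩ {ω | ∀ s ≤ n, L (y (t + s) ω) ≤ g}) ≤
        ∫⁻ ω in H, ENNReal.ofReal (F a C n (g - L (y t ω))) ∂P := by
  set ν := (stdGaussian (E N)).map (Z β σ e0) with hν
  have : IsProbabilityMeasure ν :=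
    Measure.isProbabilityMeasure_map (measurable_Z β σ e0).aemeasurable
  have mL : ∀ t, Measurable[ℱ t] (fun ω => L (y t ω)) := fun t => measurable_L.comp (hy.meas t)
  intro n
  induction n with
  | zero =>
    intro t H hH
    have m1 : MeasurableSet {ω | L (y t ω) ≤ g} :=
      ℱ.le t _ (measurableSet_le (mL t) measurable_const)
    have e1 : H ∩ {ω | ∀ s ≤ 0, L (y (t + s) ω) ≤ g} = {ω | L (y t ω) ≤ g} ∩ H := by
      ext ω
      simp only [mem_inter_iff, mem_ofPred_eq, nonpos_iff_eq_zero, forall_eq, add_zero]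
      exact and_comm
    rw [e1, ← Measure.restrict_apply m1, ← lintegral_indicator_one m1]
    apply lintegral_mono
    intro ω
    by_cases hω : ω ∈ {ω | L (y t ω) ≤ g}
    · rw [indicator_of_mem hω]
      have hω' : L (y t ω) ≤ g := hω
      simp only
      rw [F_zero ha hC (by linarith), ENNReal.ofReal_one]
      exact le_rfl
    · rw [indicator_of_notMem hω]; exact zero_le
  | succ n ih =>
    intro t H hH
    have m1 : MeasurableSet[ℱ t] {ω | L (y t ω) ≤ g} := measurableSet_le (mL t) measurable_const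
    set H' := H ∩ {ω | L (y t ω) ≤ g} with hH'
    have mH' : MeasurableSet[ℱ t] H' := hH.inter m1
    have mH'' : MeasurableSet H' := ℱ.le t _ mH'
    have e1 : H ∩ {ω | ∀ s ≤ n + 1, L (y (t + s) ω) ≤ g} ⊆
        H' ∩ {ω | ∀ s ≤ n, L (y (t + 1 + s) ω) ≤ g} := by
      rintro ω ⟨h1, h2⟩
      refine ⟨⟨h1, by simpa using h2 0 (by omega)⟩, fun s hs => ?_⟩
      have := h2 (s + 1) (by omega)
      rwa [show t + (s + 1) = t + 1 + s by ring] at this
    refine (measure_mono e1).trans ((ih (t + 1) H' (ℱ.mono (Nat.le_succ t) _ mH')).trans ?_)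
    have mf : Measurable (fun x : E N => ENNReal.ofReal (F a C n (g - L x))) :=
      ENNReal.measurable_ofReal.comp ((measurable_F a C n).comp
        (measurable_const.sub measurable_L))
    rw [hy.step t H' mH' (fun x => ENNReal.ofReal (F a C n (g - L x))) mf]
    calc ∫⁻ ω in H', ∫⁻ h, ENNReal.ofReal (F a C n (g - L (T β σ (y t ω) h)))
          ∂(stdGaussian (E N)) ∂P
        ≤ ∫⁻ ω in H', ENNReal.ofReal (F a C (n + 1) (g - L (y t ω))) ∂P := by
          apply lintegral_mono_ae
          filter_upwards [ae_restrict_of_ae (hy.ne_zero hN hσ t), ae_restrict_mem mH''] with ω hω hωH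
          have hx : 0 ≤ g - L (y t ω) := sub_nonneg.2 hωH.2
          set x := g - L (y t ω) with hxd
          have h1 : ∫⁻ h, ENNReal.ofReal (F a C n (g - L (T β σ (y t ω) h)))
              ∂(stdGaussian (E N)) =
              ∫⁻ h, ENNReal.ofReal (F a C n (x - Z β σ (dir (y t ω)) h))
                ∂(stdGaussian (E N)) := by
            apply lintegral_congr_ae
            filter_upwards [L_T hN β hσ hω] with h hh
            rw [hh, hxd]
            congr 2
            ring
          have mF : Measurable (fun ξ : ℝ => ENNReal.ofReal (F a C n (x - ξ))) :=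
            ENNReal.measurable_ofReal.comp ((measurable_F a C n).comp
              (measurable_const.sub measurable_id))
          have h2 : ∫⁻ h, ENNReal.ofReal (F a C n (x - Z β σ (dir (y t ω)) h))
                ∂(stdGaussian (E N)) = ∫⁻ ξ, ENNReal.ofReal (F a C n (x - ξ)) ∂ν := by
            rw [hν, ← Z_law hN β σ (norm_dir hω) he0 (bar_dir hN _) hb0,
              lintegral_map mF (measurable_Z β σ _)]
          rw [h1, h2]
          have iF : Integrable (fun ξ => F a C n (x - ξ)) ν := by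
            refine (integrable_const (1 : ℝ)).mono' ((measurable_F a C n).comp
              (measurable_const.sub measurable_id)).aestronglyMeasurable ?_
            filter_upwards with ξ
            rw [Real.norm_of_nonneg (F_nonneg (by linarith) _ _)]
            exact F_le_one _ _
          rw [← ofReal_integral_eq_lintegral_ofReal iF
            (Eventually.of_forall fun ξ => F_nonneg (by linarith) _ _)]
          exact ENNReal.ofReal_le_ofReal (F_step ν ha hC hκ hd n hx)
      _ ≤ _ := lintegral_mono_set inter_subset_left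

/-- Iterated transition probabilities into a slab. -/
noncomputable def Q (β σ : ℝ) (ℓ : E N → ℝ) (K : ℝ) : ℕ → E N → ℝ≥0∞
  | 0 => {x | |ℓ x| ≤ K}.indicator 1
  | n + 1 => fun x => ∫⁻ h, Q β σ ℓ K n (T β σ x h) ∂(stdGaussian (E N))

lemma measurable_Q {ℓ : E N → ℝ} (hℓ : Measurable ℓ) (K : ℝ) :
    ∀ n, Measurable (Q β σ ℓ K n)
  | 0 => measurable_one.indicator (measurableSet_le
      (continuous_abs.measurable.comp hℓ) measurable_const)
  | n + 1 => by
    have h1 := (measurable_Q hℓ K n).comp (measurable_T (N := N) β σ)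
    exact Measurable.lintegral_prod_right' h1

lemma Q_int (hN : 0 < N) {ℓ : E N → ℝ} (hℓ : Measurable ℓ)
    (hshift : ∀ x b, ℓ (x + b • one N) = ℓ x + b) (K : ℝ) :
    ∀ n (z : E N), ∫⁻ b : ℝ, Q β σ ℓ K n (z + b • one N) = ENNReal.ofReal (2 * K) := by
  intro n
  induction n with
  | zero =>
    intro z
    have h1 : ∀ b : ℝ, Q β σ ℓ K 0 (z + b • one N) = (Icc (-K - ℓ z) (K - ℓ z)).indicator 1 b := by
      intro b
      change {x : E N | |ℓ x| ≤ K}.indicator 1 (z + b • one N) = _
      by_cases h : |ℓ (z + b • one N)| ≤ K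
      · rw [indicator_of_mem (show z + b • one N ∈ {x : E N | |ℓ x| ≤ K} from h)]
        rw [hshift, abs_le] at h
        rw [indicator_of_mem (show b ∈ Icc (-K - ℓ z) (K - ℓ z) from
          ⟨by linarith [h.1], by linarith [h.2]⟩)]
        rfl
      · rw [indicator_of_notMem (show z + b • one N ∉ {x : E N | |ℓ x| ≤ K} from h)]
        rw [indicator_of_notMem]
        intro hb
        apply h
        rw [hshift, abs_le]
        exact ⟨by linarith [hb.1], by linarith [hb.2]⟩
    simp_rw [h1]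
    rw [lintegral_indicator_one measurableSet_Icc, Real.volume_Icc]
    congr 1; ring
  | succ n ih =>
    intro z
    have h1 : ∀ b : ℝ, Q β σ ℓ K (n + 1) (z + b • one N) =
        ∫⁻ h, Q β σ ℓ K n (T β σ z h + b • one N) ∂(stdGaussian (E N)) := by
      intro b
      change ∫⁻ h, Q β σ ℓ K n (T β σ (z + b • one N) h) ∂(stdGaussian (E N)) = _
      simp_rw [T_shift hN]
    simp_rw [h1]
    have m1 : Measurable (fun p : ℝ × E N => Q β σ ℓ K n (T β σ z p.2 + p.1 • one N)) := by
      apply (measurable_Q hℓ K n).comp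
      have h2 : Measurable (fun p : ℝ × E N => T β σ z p.2) :=
        (measurable_T β σ).comp (measurable_const.prodMk measurable_snd)
      exact h2.add (measurable_fst.smul_const _)
    rw [lintegral_lintegral_swap m1.aemeasurable]
    simp_rw [ih]
    simp

lemma Q_le (hN : 0 < N) {ℓ : E N → ℝ} (hℓ : Measurable ℓ)
    (hshift : ∀ x b, ℓ (x + b • one N) = ℓ x + b) (K : ℝ) (hσ : 0 < σ) (n : ℕ) {x : E N}
    (hx : bar x ≠ 0) : Q β σ ℓ K (n + 1) x ≤
      ENNReal.ofReal (√N / (√(2 * Real.pi) * σ * ‖bar x‖)) * ENNReal.ofReal (2 * K) := by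
  have hx0 : 0 < ‖bar x‖ := norm_pos_iff.2 hx
  have hN' : (0 : ℝ) < N := by exact_mod_cast hN
  have mQ := measurable_Q (β := β) (σ := σ) hℓ K n
  have mT : ∀ z : E N, Measurable (fun h => T β σ z h) := fun z =>
    (measurable_T β σ).comp (measurable_const.prodMk measurable_id)
  change ∫⁻ h, Q β σ ℓ K n (T β σ x h) ∂(stdGaussian (E N)) ≤ _
  have mS : Measurable (fun p : E N × ℝ => bar p.1 + (p.2 / √N) • one N) :=
    (measurable_bar.comp measurable_fst).add ((measurable_snd.div_const _).smul_const _)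
  have e1 : ∫⁻ h, Q β σ ℓ K n (T β σ x h) ∂(stdGaussian (E N)) =
      ∫⁻ h, ∫⁻ z, Q β σ ℓ K n (T β σ x (bar h + (z / √N) • one N)) ∂(gaussianReal 0 1)
        ∂(stdGaussian (E N)) := by
    have mQT : Measurable (fun h => Q β σ ℓ K n (T β σ x h)) := mQ.comp (mT x)
    have mQTS : Measurable (fun p : E N × ℝ =>
      Q β σ ℓ K n (T β σ x (bar p.1 + (p.2 / √N) • one N))) := mQT.comp mS
    conv_lhs => rw [← gauss_split hN]
    rw [lintegral_map mQT mS, lintegral_prod _ mQTS.aemeasurable]
  rw [e1]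
  set s : ℝ := σ * ‖bar x‖ / √N with hs
  have hs0 : 0 < s := by positivity
  set v : ℝ≥0 := ⟨s ^ 2, sq_nonneg _⟩ with hv
  have hvr : (v : ℝ) = s ^ 2 := rfl
  have hv0 : v ≠ 0 := by
    intro h
    have : (v : ℝ) = 0 := by rw [h]; rfl
    rw [hvr] at this
    exact absurd this (by positivity)
  have hinner : ∀ h : E N, ∫⁻ z, Q β σ ℓ K n (T β σ x (bar h + (z / √N) • one N))
      ∂(gaussianReal 0 1) ≤
      ENNReal.ofReal (√N / (√(2 * Real.pi) * σ * ‖bar x‖)) * ENNReal.ofReal (2 * K) := by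
    intro h
    have e2 : ∀ z : ℝ, T β σ x (bar h + (z / √N) • one N) =
        T β σ x (bar h) + (s * z) • one N := by
      intro z
      unfold T
      rw [hs]
      module
    simp_rw [e2]
    have mQ2 : Measurable (fun b : ℝ => Q β σ ℓ K n (T β σ x (bar h) + b • one N)) :=
      mQ.comp ((measurable_id.smul_const _).const_add _)
    have e3 : ∫⁻ z, Q β σ ℓ K n (T β σ x (bar h) + (s * z) • one N) ∂(gaussianReal 0 1) =
        ∫⁻ b, Q β σ ℓ K n (T β σ x (bar h) + b • one N) ∂(gaussianReal 0 v) := by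
      have h3 : (gaussianReal 0 1).map (fun z : ℝ => s * z) = gaussianReal 0 v := by
        rw [gaussianReal_map_const_mul]; simp; rfl
      rw [← h3, lintegral_map mQ2 (by fun_prop)]
    rw [e3, gaussianReal_of_var_ne_zero 0 hv0,
      lintegral_withDensity_eq_lintegral_mul _ (measurable_gaussianPDF 0 v) mQ2]
    calc _ ≤ ∫⁻ b : ℝ, ENNReal.ofReal (√N / (√(2 * Real.pi) * σ * ‖bar x‖)) *
          Q β σ ℓ K n (T β σ x (bar h) + b • one N) := by
          apply lintegral_mono
          intro b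
          change gaussianPDF 0 v b * Q β σ ℓ K n (T β σ x (bar h) + b • one N) ≤ _
          apply mul_le_mul' _ le_rfl
          unfold gaussianPDF
          apply ENNReal.ofReal_le_ofReal
          unfold gaussianPDFReal
          have h4 : Real.exp (-(b - 0) ^ 2 / (2 * v)) ≤ 1 := by
            rw [Real.exp_le_one_iff]
            apply div_nonpos_of_nonpos_of_nonneg
            · nlinarith [sq_nonneg (b - 0)]
            · positivity
          have h5 : (√(2 * Real.pi * v))⁻¹ = √N / (√(2 * Real.pi) * σ * ‖bar x‖) := by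
            rw [hvr, Real.sqrt_mul (by positivity), Real.sqrt_sq hs0.le, hs]
            field_simp
          rw [h5]
          have h6 : 0 ≤ √N / (√(2 * Real.pi) * σ * ‖bar x‖) := by positivity
          nlinarith
      _ = _ := by rw [lintegral_const_mul _ mQ2, Q_int hN hℓ hshift]
  calc _ ≤ ∫⁻ _ : E N, ENNReal.ofReal (√N / (√(2 * Real.pi) * σ * ‖bar x‖)) *
        ENNReal.ofReal (2 * K) ∂(stdGaussian (E N)) := lintegral_mono hinner
    _ = _ := by simp

lemma Chain.slab (hy : Chain P ℱ β σ y) {ℓ : E N → ℝ} (hℓ : Measurable ℓ) (K : ℝ) :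
    ∀ n t, ∀ H : Set Ω, MeasurableSet[ℱ t] H →
      P (H ∩ {ω | |ℓ (y (t + n) ω)| ≤ K}) = ∫⁻ ω in H, Q β σ ℓ K n (y t ω) ∂P := by
  intro n
  induction n with
  | zero =>
    intro t H hH
    have m1 : MeasurableSet {ω | |ℓ (y t ω)| ≤ K} := measurableSet_le
      (continuous_abs.measurable.comp (hℓ.comp (hy.meas' t))) measurable_const
    rw [inter_comm, add_zero, ← Measure.restrict_apply m1, ← lintegral_indicator_one m1]
    rfl
  | succ n ih =>
    intro t H hH
    have h1 := ih (t + 1) H (ℱ.mono (Nat.le_succ t) _ hH)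
    rw [show t + 1 + n = t + (n + 1) by ring] at h1
    rw [h1, hy.step t H hH _ (measurable_Q hℓ K n)]
    rfl

/-- After the norm has exceeded a level, the slab is hit with small probability. -/
lemma Chain.hit (hN : 0 < N) (hσ : 0 < σ) (hy : Chain P ℱ β σ y) {ℓ : E N → ℝ}
    (hℓ : Measurable ℓ) (hshift : ∀ x b, ℓ (x + b • one N) = ℓ x + b) {K : ℝ} (g : ℝ) :
    ∀ n t, ∀ H : Set Ω, MeasurableSet[ℱ t] H →
      P (H ∩ {ω | |ℓ (y (t + n) ω)| ≤ K ∧ ∃ s < n, g < L (y (t + s) ω)}) ≤
        ENNReal.ofReal (√N / (√(2 * Real.pi) * σ) * (2 * |K|) * Real.exp (-g)) * P H := by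
  have mL : ∀ t, Measurable[ℱ t] (fun ω => L (y t ω)) := fun t => measurable_L.comp (hy.meas t)
  intro n
  induction n with
  | zero =>
    intro t H hH
    have : H ∩ {ω | |ℓ (y (t + 0) ω)| ≤ K ∧ ∃ s < 0, g < L (y (t + s) ω)} = ∅ := by
      ext ω; simp
    rw [this, measure_empty]; exact zero_le
  | succ n ih =>
    intro t H hH
    set c := ENNReal.ofReal (√N / (√(2 * Real.pi) * σ) * (2 * |K|) * Real.exp (-g)) with hc
    have m1 : MeasurableSet[ℱ t] {ω | L (y t ω) ≤ g} := measurableSet_le (mL t) measurable_const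
    set H1 := H ∩ {ω | L (y t ω) ≤ g} with hH1
    set H2 := H ∩ {ω | L (y t ω) ≤ g}ᶜ with hH2
    have mH1 : MeasurableSet[ℱ t] H1 := hH.inter m1
    have mH2 : MeasurableSet[ℱ t] H2 := hH.inter m1.compl
    have hsub : H ∩ {ω | |ℓ (y (t + (n + 1)) ω)| ≤ K ∧ ∃ s < n + 1, g < L (y (t + s) ω)} ⊆
        (H1 ∩ {ω | |ℓ (y (t + 1 + n) ω)| ≤ K ∧ ∃ s < n, g < L (y (t + 1 + s) ω)}) ∪
        (H2 ∩ {ω | |ℓ (y (t + (n + 1)) ω)| ≤ K}) := by
      rintro ω ⟨h1, h2, s, hs, h3⟩
      by_cases h4 : L (y t ω) ≤ g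
      · left
        refine ⟨⟨h1, h4⟩, ?_, ?_⟩
        · rw [show t + 1 + n = t + (n + 1) by ring]; exact h2
        · rcases s with _ | s
          · rw [add_zero] at h3; exact absurd h4 (not_le.2 h3)
          · refine ⟨s, by omega, ?_⟩
            rw [show t + 1 + s = t + (s + 1) by ring]; exact h3
      · right
        exact ⟨⟨h1, h4⟩, h2⟩
    have b1 := ih (t + 1) H1 (ℱ.mono (Nat.le_succ t) _ mH1)
    have b2 : P (H2 ∩ {ω | |ℓ (y (t + (n + 1)) ω)| ≤ K}) ≤ c * P H2 := by
      rw [hy.slab hℓ K (n + 1) t H2 mH2, ← setLIntegral_const]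
      apply lintegral_mono_ae
      filter_upwards [ae_restrict_of_ae (hy.ne_zero hN hσ.ne' t),
        ae_restrict_mem (ℱ.le t _ mH2)] with ω hω hωH
      refine (Q_le hN hℓ hshift K hσ n hω).trans ?_
      have hg : g < L (y t ω) := not_le.1 hωH.2
      have hn : 0 < ‖bar (y t ω)‖ := norm_pos_iff.2 hω
      have h5 : (‖bar (y t ω)‖)⁻¹ ≤ Real.exp (-g) := by
        rw [Real.exp_neg]
        apply inv_anti₀ (Real.exp_pos g)
        have h6 := Real.exp_lt_exp.2 hg
        rw [L, Real.exp_log hn] at h6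
        exact h6.le
      rw [hc, ← ENNReal.ofReal_mul (by positivity)]
      apply ENNReal.ofReal_le_ofReal
      have h7 : √N / (√(2 * Real.pi) * σ * ‖bar (y t ω)‖) * (2 * K) ≤
          √N / (√(2 * Real.pi) * σ * ‖bar (y t ω)‖) * (2 * |K|) := by
        have := le_abs_self K
        gcongr
      refine h7.trans ?_
      calc √N / (√(2 * Real.pi) * σ * ‖bar (y t ω)‖) * (2 * |K|)
          = √N / (√(2 * Real.pi) * σ) * (2 * |K|) * (‖bar (y t ω)‖)⁻¹ := by field_simp
        _ ≤ _ := by gcongr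
    calc P (H ∩ {ω | |ℓ (y (t + (n + 1)) ω)| ≤ K ∧ ∃ s < n + 1, g < L (y (t + s) ω)})
        ≤ c * P H1 + c * P H2 :=
          (measure_mono hsub).trans ((measure_union_le _ _).trans (add_le_add b1 b2))
      _ = c * P H := by
          rw [← mul_add, hH1, hH2, ← sdiff_eq]
          congr 1
          exact measure_inter_add_sdiff H (ℱ.le t _ m1)

end Pool.Agent.Q240.GC
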